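import Pool.Agent.Y821.GK.Stm

/-!
# Project GK: decoupling for a general family of pairs (adapted from `Pool.Agent.H102R3.SCT`)
-/

set_option autoImplicit false

open MeasureTheory ProbabilityTheory Matrix Pool.H102.SC

namespace Pool.Agent.Y821.GK

theorem t_DEC : S_DEC := by
  intro k ι P _ _ x y
  set μ := Gm (Fin k × ι) with hμ
  set Z : EuclideanSpace ℝ (Fin k × ι) × EuclideanSpace ℝ (Fin k × ι) → P → ℝ :=
    fun z p => (inner ℝ (act z.1 (x p)) (act z.2 (y p)) : ℝ) with hZ
  have hZint : Integrable (fun z => ‖Z z‖) (μ.prod μ) := by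
    apply Integrable.norm
    apply Integrable.of_eval
    intro p
    simp only [hZ, inner_act_eq_sum]
    exact integrable_finsetSum _ (fun a _ => (integrable_act _ a).mul_prod (integrable_act _ a))
  refine ⟨hZint, ?_⟩
  set D : EuclideanSpace ℝ (Fin k × ι) → P → ℝ :=
    fun g p => (inner ℝ (act g (x p)) (act g (y p)) : ℝ) - k * inner ℝ (x p) (y p) with hD
  have hDint : Integrable (fun g => ‖D g‖) μ := by
    apply Integrable.norm
    apply Integrable.of_eval
    intro p
    exact (integrable_inner_act _ _).sub (integrable_const _)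
  set F1 : EuclideanSpace ℝ (Fin k × ι) × EuclideanSpace ℝ (Fin k × ι) → P → ℝ :=
    fun z p => inner ℝ (act z.1 (x p)) (act z.1 (y p)) -
      inner ℝ (act z.2 (x p)) (act z.2 (y p)) with hF1
  have hF1int : ∀ p, Integrable (fun z => F1 z p) (μ.prod μ) := by
    intro p
    have h1 : Integrable (fun z : EuclideanSpace ℝ (Fin k × ι) × EuclideanSpace ℝ (Fin k × ι) =>
      inner ℝ (act z.1 (x p)) (act z.1 (y p))) (μ.prod μ) :=
      (integrable_inner_act (x p) (y p)).comp_fst _
    have h2 : Integrable (fun z : EuclideanSpace ℝ (Fin k × ι) × EuclideanSpace ℝ (Fin k × ι) =>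
      inner ℝ (act z.2 (x p)) (act z.2 (y p))) (μ.prod μ) :=
      (integrable_inner_act (x p) (y p)).comp_snd _
    exact h1.sub h2
  have hF1n : Integrable (fun z => ‖F1 z‖) (μ.prod μ) :=
    (Integrable.of_eval hF1int).norm
  -- step 1
  have h1 : ∫ g, ‖D g‖ ∂μ ≤ ∫ z, ‖F1 z‖ ∂(μ.prod μ) := by
    rw [integral_prod _ hF1n]
    have hae : ∀ᵐ g ∂μ, Integrable (fun h => ‖F1 (g, h)‖) μ := hF1n.prod_right_ae
    apply integral_mono_ae hDint hF1n.integral_prod_left
    filter_upwards [hae] with g hg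
    have hnn : 0 ≤ ∫ h, ‖F1 (g, h)‖ ∂μ := integral_nonneg (fun h => norm_nonneg _)
    rw [pi_norm_le_iff_of_nonneg hnn]
    intro p
    have e : D g p = ∫ h, F1 (g, h) p ∂μ := by
      have : (fun h => F1 (g, h) p) = fun h => inner ℝ (act g (x p)) (act g (y p)) -
        inner ℝ (act h (x p)) (act h (y p)) := rfl
      rw [this, integral_sub (integrable_const _) (integrable_inner_act _ _),
        integral_inner_act]
      simp [hD]
    rw [e]
    refine (norm_integral_le_integral_norm _).trans ?_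
    apply integral_mono_of_nonneg
    · filter_upwards with h; exact norm_nonneg _
    · exact hg
    · filter_upwards with h
      exact norm_le_pi_norm (F1 (g, h)) p
  -- step 2 : rotation
  have hrot : (μ.prod μ).map (ContinuousLinearMap.rotation (Real.pi / 4)) = μ.prod μ := by
    apply IsGaussian.map_rotation_eq_self
    exact integral_id_stdGaussian
  have h2 : ∫ z, ‖F1 z‖ ∂(μ.prod μ) =
      ∫ z, ‖Z z + Z z.swap‖ ∂(μ.prod μ) := by
    conv_lhs => rw [← hrot]
    rw [integral_map (by fun_prop)]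
    · apply integral_congr_ae
      filter_upwards with z
      congr 1
      funext p
      rw [ContinuousLinearMap.rotation_apply]
      simp only [hF1, hZ, Pi.add_apply, act_add, act_smul, Real.cos_pi_div_four,
        Real.sin_pi_div_four, inner_add_left, inner_add_right, real_inner_smul_left,
        real_inner_smul_right, Prod.fst_swap, Prod.snd_swap]
      have hs : Real.sqrt 2 * Real.sqrt 2 = 2 := Real.mul_self_sqrt (by norm_num)
      have e1 : Real.sqrt 2 / 2 * (Real.sqrt 2 / 2) = 1 / 2 := by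
        rw [div_mul_div_comm, hs]; norm_num
      have e2 : ∀ a : ℝ, Real.sqrt 2 / 2 * (Real.sqrt 2 / 2 * a) = 1 / 2 * a := by
        intro a; rw [← mul_assoc, e1]
      simp only [e2, neg_mul, mul_neg]
      ring
    · rw [hrot]; exact hF1n.aestronglyMeasurable
  have hswap : ∫ z : EuclideanSpace ℝ (Fin k × ι) × EuclideanSpace ℝ (Fin k × ι),
      ‖Z z.swap‖ ∂(μ.prod μ) = ∫ z, ‖Z z‖ ∂(μ.prod μ) :=
    integral_prod_swap (μ := μ) (ν := μ) (fun z => ‖Z z‖)
  have hZs : Integrable (fun z : EuclideanSpace ℝ (Fin k × ι) × EuclideanSpace ℝ (Fin k × ι) =>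
      ‖Z z.swap‖) (μ.prod μ) := hZint.swap
  calc ∫ g, ‖D g‖ ∂μ ≤ ∫ z, ‖F1 z‖ ∂(μ.prod μ) := h1
    _ = ∫ z, ‖Z z + Z z.swap‖ ∂(μ.prod μ) := h2
    _ ≤ ∫ z, (‖Z z‖ + ‖Z z.swap‖) ∂(μ.prod μ) := by
        apply integral_mono_of_nonneg
        · filter_upwards with z; exact norm_nonneg _
        · exact hZint.add hZs
        · filter_upwards with z
          exact norm_add_le _ _
    _ = ∫ z, ‖Z z‖ ∂(μ.prod μ) + ∫ z, ‖Z z.swap‖ ∂(μ.prod μ) := integral_add hZint hZs
    _ = 2 * ∫ z, ‖Z z‖ ∂(μ.prod μ) := by rw [hswap]; ring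

end Pool.Agent.Y821.GK
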