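import Pool.Agent.Y821.GK.Stm

/-!
# Project GK: duality between Schatten norms (adapted from `Pool.Agent.H102R3.SCE`)
-/

set_option autoImplicit false

open MeasureTheory ProbabilityTheory Matrix Pool.H102.SC

namespace Pool.Agent.Y821.GK

theorem sv_antitone {N : ℕ} (A : Matrix (Fin N) (Fin N) ℝ) : Antitone (fun i : Fin N => sv A i) := by
  intro i j hij
  exact LinearMap.singularValues_antitone _ hij

theorem t_DUAL : S_DUAL := by
  intro N p₀ q₀ hq hpq R K hK0 hK A
  have hq0 : 0 < q₀ := by linarith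
  have hp1 : 1 / p₀ = 1 - 1 / q₀ := by linarith
  have hq1 : 1 / q₀ < 1 := by rw [div_lt_one hq0]; exact hq
  have hp0 : 0 < p₀ := by
    have : 0 < 1 / p₀ := by rw [hp1]; linarith
    exact one_div_pos.1 this
  obtain ⟨u, v, hu, hu1, -, hv, hv1, hA⟩ := svd A
  obtain ⟨u', v', hu', hu1', hu2', hv', hv1', hz⟩ := svd (opm R A)
  set z := opm R A with hzdef
  set S : ℝ := ∑ i, sv z i ^ q₀ with hS
  have hS0 : 0 ≤ S := Finset.sum_nonneg (fun i _ => Real.rpow_nonneg (sv_nonneg z i) _)
  rcases hS0.eq_or_lt with hSz | hSpos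
  · have : schatten q₀ z = 0 := by
      rw [schatten, ← hS, ← hSz, Real.zero_rpow (by positivity)]
    rw [this]
    exact mul_nonneg hK0 (schatten_nonneg _ _)
  -- the dual element
  set c' : Fin N → ℝ := fun i => sv z i ^ (q₀ - 1) / S ^ (1 / p₀) with hc'
  have hc'0 : ∀ i, 0 ≤ c' i := fun i =>
    div_nonneg (Real.rpow_nonneg (sv_nonneg z i) _) (Real.rpow_nonneg hS0 _)
  have hc'a : Antitone c' := by
    intro i j hij
    apply div_le_div_of_nonneg_right _ (Real.rpow_nonneg hS0 _)
    exact Real.rpow_le_rpow (sv_nonneg z j) (sv_antitone z hij) (by linarith)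
  have hqp : (q₀ - 1) * p₀ = q₀ := by
    have h1 : p₀ ≠ 0 := hp0.ne'
    have h2 : q₀ ≠ 0 := hq0.ne'
    field_simp at hpq
    linarith
  have hc'1 : ∑ i, c' i ^ p₀ ≤ 1 := by
    have : ∀ i, c' i ^ p₀ = sv z i ^ q₀ / S := by
      intro i
      rw [hc', Real.div_rpow (Real.rpow_nonneg (sv_nonneg z i) _) (Real.rpow_nonneg hS0 _),
        ← Real.rpow_mul (sv_nonneg z i), ← Real.rpow_mul hS0, hqp, one_div_mul_cancel hp0.ne',
        Real.rpow_one]
    simp_rw [this]
    rw [← Finset.sum_div, ← hS, div_self hSpos.ne']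
  set Y : Matrix (Fin N) (Fin N) ℝ := piece u' v' c' Finset.univ with hY
  have hpair : bil R A Y = schatten q₀ z := by
    rw [bil_eq, ← hzdef]
    have e1 : ∑ x, ∑ y, z x y * Y x y = ∑ i, ∑ j, sv z i * c' j *
        (inner ℝ (u' i) (u' j) * inner ℝ (v' i) (v' j)) := by
      have e2 : ∀ i j, inner ℝ (u' i) (u' j) * inner ℝ (v' i) (v' j) =
          ∑ x, ∑ y, (u' i x * u' j x) * (v' i y * v' j y) := by
        intro i j
        rw [PiLp.inner_apply, PiLp.inner_apply, Finset.sum_mul_sum]
        apply Finset.sum_congr rfl; intro x _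
        apply Finset.sum_congr rfl; intro y _
        simp only [RCLike.inner_apply, conj_trivial]
        ring
      simp_rw [e2, Finset.mul_sum]
      calc ∑ x, ∑ y, z x y * Y x y = ∑ x, ∑ y, ∑ i, ∑ j,
            sv z i * c' j * (u' i x * u' j x * (v' i y * v' j y)) := by
            apply Finset.sum_congr rfl; intro x _
            apply Finset.sum_congr rfl; intro y _
            rw [hz x y, hY, piece, of_apply, Finset.sum_mul_sum]
            apply Finset.sum_congr rfl; intro i _
            apply Finset.sum_congr rfl; intro j _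
            ring
        _ = ∑ x, ∑ i, ∑ y, ∑ j,
            sv z i * c' j * (u' i x * u' j x * (v' i y * v' j y)) := by
            apply Finset.sum_congr rfl; intro x _
            rw [Finset.sum_comm]
        _ = ∑ i, ∑ x, ∑ y, ∑ j,
            sv z i * c' j * (u' i x * u' j x * (v' i y * v' j y)) := by
            rw [Finset.sum_comm]
        _ = ∑ i, ∑ x, ∑ j, ∑ y,
            sv z i * c' j * (u' i x * u' j x * (v' i y * v' j y)) := by
            apply Finset.sum_congr rfl; intro i _
            apply Finset.sum_congr rfl; intro x _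
            rw [Finset.sum_comm]
        _ = ∑ i, ∑ j, ∑ x, ∑ y,
            sv z i * c' j * (u' i x * u' j x * (v' i y * v' j y)) := by
            apply Finset.sum_congr rfl; intro i _
            rw [Finset.sum_comm]
    rw [e1]
    have e3 : ∀ i, ∑ j, sv z i * c' j * (inner ℝ (u' i) (u' j) * inner ℝ (v' i) (v' j)) =
        sv z i * c' i := by
      intro i
      rw [Finset.sum_eq_single i]
      · by_cases h : sv z i = 0
        · rw [h]; ring
        · rw [real_inner_self_eq_norm_sq, real_inner_self_eq_norm_sq, hu2' i h, hv1' i]; ring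
      · intro j _ hj
        rw [hu' i j (Ne.symm hj)]; ring
      · intro h; exact absurd (Finset.mem_univ _) h
    simp_rw [e3]
    have e4 : ∀ i, sv z i * c' i = sv z i ^ q₀ / S ^ (1 / p₀) := by
      intro i
      simp only [hc']
      rw [← mul_div_assoc]
      congr 1
      by_cases h : sv z i = 0
      · rw [h, Real.zero_rpow hq0.ne', zero_mul]
      · rw [mul_comm, ← Real.rpow_add_one h]
        congr 1; ring
    simp_rw [e4]
    rw [← Finset.sum_div, ← hS, schatten, ← hS]
    have e5 : S ^ (1 / q₀) = S ^ (1 : ℝ) / S ^ (1 / p₀) := by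
      rw [← Real.rpow_sub hSpos]
      congr 1; linarith
    rw [e5, Real.rpow_one]
  set s : ℝ := schatten p₀ A with hs
  have hs0 : 0 ≤ s := schatten_nonneg _ _
  rw [← hpair]
  rcases hs0.eq_or_lt with hsz | hspos
  · -- A = 0
    have h1 : ∑ i, sv A i ^ p₀ = 0 := by
      have h2 : (∑ i, sv A i ^ p₀) ^ (1 / p₀) = 0 := hsz.symm
      have h3 : 0 ≤ ∑ i, sv A i ^ p₀ :=
        Finset.sum_nonneg (fun i _ => Real.rpow_nonneg (sv_nonneg A i) _)
      rw [Real.rpow_eq_zero h3 (by positivity)] at h2
      exact h2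
    have h2 : ∀ i, sv A i = 0 := by
      intro i
      have h3 := (Finset.sum_eq_zero_iff_of_nonneg
        (fun i _ => Real.rpow_nonneg (sv_nonneg A i) p₀)).1 h1 i (Finset.mem_univ i)
      rwa [Real.rpow_eq_zero (sv_nonneg A i) hp0.ne'] at h3
    have h3 : A = 0 := by
      ext x y
      rw [hA x y]
      simp [h2]
    rw [h3, map_zero]
    simp only [LinearMap.zero_apply]
    exact mul_nonneg hK0 hs0
  · have hA' : A = s • piece u v (fun i => sv A i / s) Finset.univ := by
      ext x y
      rw [hA x y, Matrix.smul_apply, piece, of_apply, smul_eq_mul, Finset.mul_sum]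
      apply Finset.sum_congr rfl; intro i _
      field_simp
    have hc1 : ∑ i, (sv A i / s) ^ p₀ ≤ 1 := by
      have h3 : 0 ≤ ∑ i, sv A i ^ p₀ :=
        Finset.sum_nonneg (fun i _ => Real.rpow_nonneg (sv_nonneg A i) _)
      have h4 : s ^ p₀ = ∑ i, sv A i ^ p₀ := by
        rw [hs, schatten, ← Real.rpow_mul h3, one_div_mul_cancel hp0.ne', Real.rpow_one]
      have h5 : ∀ i, (sv A i / s) ^ p₀ = sv A i ^ p₀ / s ^ p₀ := fun i =>
        Real.div_rpow (sv_nonneg A i) hs0 _
      simp_rw [h5]
      rw [← Finset.sum_div, h4, div_self]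
      rw [← h4]
      exact (Real.rpow_pos_of_pos hspos _).ne'
    have hmain := hK u v u' v' ⟨hu, hu1, hv, fun i => (hv1 i).le⟩
      ⟨hu', hu1', hv', fun i => (hv1' i).le⟩ (fun i => sv A i / s) c'
      (fun i => div_nonneg (sv_nonneg A i) hs0) hc'0
      (fun i j hij => div_le_div_of_nonneg_right (sv_antitone A hij) hs0) hc'a hc1 hc'1
    have h6 : bil R A Y = s * bil R (piece u v (fun i => sv A i / s) Finset.univ) Y := by
      conv_lhs => rw [hA']
      rw [map_smul, LinearMap.smul_apply, smul_eq_mul]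
    rw [h6]
    calc s * bil R (piece u v (fun i => sv A i / s) Finset.univ) Y
        ≤ s * |bil R (piece u v (fun i => sv A i / s) Finset.univ) Y| :=
          mul_le_mul_of_nonneg_left (le_abs_self _) hs0
      _ ≤ s * K := mul_le_mul_of_nonneg_left hmain hs0
      _ = K * s := mul_comm _ _

end Pool.Agent.Y821.GK
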