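import Pool.Agent.Y821.GK.Stm2

/-!
# Project GK: the Gaussian bound for all levels at once
-/

set_option autoImplicit false

open MeasureTheory ProbabilityTheory Matrix Pool.H102.SC

namespace Pool.Agent.Y821.GK

theorem act_smul' {ι : Type*} [Fintype ι] {k : ℕ} (c : ℝ) (g : EuclideanSpace ℝ (Fin k × ι))
    (x : EuclideanSpace ℝ ι) : act g (c • x) = c • act g x := by
  ext a
  simp only [act_apply, PiLp.smul_apply, smul_eq_mul, Finset.mul_sum]
  apply Finset.sum_congr rfl; intro i _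
  ring

theorem tens_smul' {ι : Type*} [Fintype ι] {k : ℕ} (c : ℝ) (t : EuclideanSpace ℝ (Fin k))
    (x : EuclideanSpace ℝ ι) : tens t (c • x) = c • tens t x := by
  ext p
  simp only [tens_apply, PiLp.smul_apply, smul_eq_mul]
  ring

theorem exp_half : Real.exp (-1) ≤ 1 / 2 := by
  have h := Real.exp_one_gt_d9
  rw [Real.exp_neg, inv_eq_one_div]
  apply one_div_le_one_div_of_le (by norm_num)
  linarith

theorem half_sum (n : ℕ) : ∑ a ∈ Finset.range n, ((1 : ℝ) / 2) ^ (a + 1) = 1 - (1 / 2) ^ n := by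
  induction n with
  | zero => simp
  | succ n ih => rw [Finset.sum_range_succ, ih, pow_succ]; ring

theorem exp_sum (L : ℕ) : ∑ a : Fin (L + 1), Real.exp (-((a : ℕ) + 1 : ℝ)) ≤ 1 := by
  have h1 : ∀ a : ℕ, Real.exp (-((a : ℕ) + 1 : ℝ)) ≤ (1 / 2) ^ (a + 1) := by
    intro a
    have : Real.exp (-((a : ℕ) + 1 : ℝ)) = Real.exp (-1) ^ (a + 1) := by
      rw [← Real.exp_nat_mul]
      congr 1
      push_cast; ring
    rw [this]
    exact pow_le_pow_left₀ (Real.exp_pos _).le exp_half _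
  calc ∑ a : Fin (L + 1), Real.exp (-((a : ℕ) + 1 : ℝ))
      ≤ ∑ a : Fin (L + 1), ((1 : ℝ) / 2) ^ ((a : ℕ) + 1) :=
        Finset.sum_le_sum (fun a _ => h1 a)
    _ = ∑ a ∈ Finset.range (L + 1), ((1 : ℝ) / 2) ^ (a + 1) :=
        Fin.sum_univ_eq_sum_range (fun a => ((1 : ℝ) / 2) ^ (a + 1)) (L + 1)
    _ = 1 - (1 / 2) ^ (L + 1) := half_sum _
    _ ≤ 1 := by
        have : (0 : ℝ) < (1 / 2) ^ (L + 1) := by positivity
        linarith

theorem pow_exp (m : ℕ) (c : ℝ) (e : ℕ) (hc : 0 ≤ c) (h : c ≤ Real.exp e) :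
    c ^ m ≤ Real.exp (e * m) := by
  calc c ^ m ≤ (Real.exp e) ^ m := pow_le_pow_left₀ hc h _
    _ = Real.exp (e * m) := by rw [← Real.exp_nat_mul]; congr 1; ring

theorem e13 : (390625 : ℝ) ≤ Real.exp ((13 : ℕ) : ℝ) := by
  have h := Real.exp_one_gt_d9
  have h1 : Real.exp ((13 : ℕ) : ℝ) = Real.exp 1 ^ 13 := by
    rw [← Real.exp_nat_mul]; congr 1; norm_num
  rw [h1]
  calc (390625 : ℝ) ≤ 2.71 ^ 13 := by norm_num
    _ ≤ Real.exp 1 ^ 13 := pow_le_pow_left₀ (by norm_num) (by linarith) _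

theorem e7 : (625 : ℝ) ≤ Real.exp ((7 : ℕ) : ℝ) := by
  have h := Real.exp_one_gt_d9
  have h1 : Real.exp ((7 : ℕ) : ℝ) = Real.exp 1 ^ 7 := by
    rw [← Real.exp_nat_mul]; congr 1; norm_num
  rw [h1]
  calc (625 : ℝ) ≤ 2.71 ^ 7 := by norm_num
    _ ≤ Real.exp 1 ^ 7 := pow_le_pow_left₀ (by norm_num) (by linarith) _

theorem e8 : (5 : ℝ) ≤ Real.exp ((8 : ℕ) : ℝ) := by
  have h := Real.add_one_le_exp ((8 : ℕ) : ℝ)
  push_cast at h ⊢
  linarith

theorem two_pow_ge (a : ℕ) : ((a : ℝ) + 1) ≤ 2 ^ a := by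
  have : a + 1 ≤ 2 ^ a := Nat.lt_two_pow_self
  exact_mod_cast this

/-- first union bound -/
theorem sumA (N L : ℕ) (hN : 1 ≤ N) (J : Fin (L + 1) → Type) [∀ a, Fintype (J a)]
    (hcard : ∀ a, Fintype.card (J a) ≤ 25 ^ (N * 2 ^ ((a : ℕ) + 1))) :
    ∑ p : PX L J, Real.exp (-(16 * (N * 2 ^ ((p.1.1.1 : Fin (L + 1)) : ℕ) : ℝ))) ≤ 1 := by
  classical
  have hNR : (1 : ℝ) ≤ N := by exact_mod_cast hN
  rw [Fintype.sum_sigma]
  have h1 : ∀ ab : LP L, ∑ _y : J ab.1.1 × J ab.1.2,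
      Real.exp (-(16 * (N * 2 ^ ((ab.1.1 : Fin (L + 1)) : ℕ) : ℝ))) ≤
      Real.exp (-((ab.1.1 : ℕ) + 1 : ℝ)) * Real.exp (-((ab.1.2 : ℕ) + 1 : ℝ)) := by
    intro ab
    have hba : (ab.1.2 : ℕ) ≤ (ab.1.1 : ℕ) := ab.2
    set a : ℕ := (ab.1.1 : ℕ) with ha
    set b : ℕ := (ab.1.2 : ℕ) with hb
    rw [Finset.sum_const, Finset.card_univ, nsmul_eq_mul, Fintype.card_prod]
    have hc : ((Fintype.card (J ab.1.1) * Fintype.card (J ab.1.2) : ℕ) : ℝ) ≤
        Real.exp (13 * (N * 2 ^ a : ℝ)) := by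
      have h2 : Fintype.card (J ab.1.1) * Fintype.card (J ab.1.2) ≤ 390625 ^ (N * 2 ^ a) := by
        calc Fintype.card (J ab.1.1) * Fintype.card (J ab.1.2)
            ≤ 25 ^ (N * 2 ^ (a + 1)) * 25 ^ (N * 2 ^ (b + 1)) :=
              Nat.mul_le_mul (hcard _) (hcard _)
          _ ≤ 25 ^ (N * 2 ^ (a + 1)) * 25 ^ (N * 2 ^ (a + 1)) := by
              apply Nat.mul_le_mul_left
              apply Nat.pow_le_pow_right (by norm_num)
              apply Nat.mul_le_mul_left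
              exact Nat.pow_le_pow_right (by norm_num) (by omega)
          _ = 390625 ^ (N * 2 ^ a) := by
              rw [← pow_add, show (390625 : ℕ) = 25 ^ 4 by norm_num, ← pow_mul]
              congr 1
              rw [pow_succ]; ring
      have h3 : ((Fintype.card (J ab.1.1) * Fintype.card (J ab.1.2) : ℕ) : ℝ) ≤
          (390625 : ℝ) ^ (N * 2 ^ a) := by exact_mod_cast h2
      refine h3.trans ((pow_exp (N * 2 ^ a) 390625 13 (by norm_num) e13).trans (le_of_eq ?_))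
      push_cast; ring_nf
    calc ((Fintype.card (J ab.1.1) * Fintype.card (J ab.1.2) : ℕ) : ℝ) *
          Real.exp (-(16 * (N * 2 ^ a : ℝ)))
        ≤ Real.exp (13 * (N * 2 ^ a : ℝ)) * Real.exp (-(16 * (N * 2 ^ a : ℝ))) :=
          mul_le_mul_of_nonneg_right hc (Real.exp_pos _).le
      _ = Real.exp (-(3 * (N * 2 ^ a : ℝ))) := by rw [← Real.exp_add]; congr 1; ring
      _ ≤ Real.exp (-((a : ℕ) + 1 : ℝ) + -((b : ℕ) + 1 : ℝ)) := by
          apply Real.exp_le_exp.2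
          have h4 := two_pow_ge a
          have h5 : (b : ℝ) ≤ a := by exact_mod_cast hba
          have h6 : (1 : ℝ) * 2 ^ a ≤ N * 2 ^ a :=
            mul_le_mul_of_nonneg_right hNR (by positivity)
          have h7 : (0 : ℝ) ≤ a := Nat.cast_nonneg a
          linarith
      _ = _ := Real.exp_add _ _
  calc ∑ ab : LP L, ∑ _y : J ab.1.1 × J ab.1.2,
        Real.exp (-(16 * (N * 2 ^ ((ab.1.1 : Fin (L + 1)) : ℕ) : ℝ)))
      ≤ ∑ ab : LP L, Real.exp (-((ab.1.1 : ℕ) + 1 : ℝ)) * Real.exp (-((ab.1.2 : ℕ) + 1 : ℝ)) :=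
        Finset.sum_le_sum (fun ab _ => h1 ab)
    _ = ∑ ab ∈ Finset.univ.filter (fun ab : Fin (L + 1) × Fin (L + 1) => ab.2 ≤ ab.1),
          Real.exp (-((ab.1 : ℕ) + 1 : ℝ)) * Real.exp (-((ab.2 : ℕ) + 1 : ℝ)) :=
        (Finset.sum_subtype (Finset.univ.filter (fun ab : Fin (L + 1) × Fin (L + 1) => ab.2 ≤ ab.1))
          (by simp) (fun ab : Fin (L + 1) × Fin (L + 1) => Real.exp (-((ab.1 : ℕ) + 1 : ℝ)) *
            Real.exp (-((ab.2 : ℕ) + 1 : ℝ)))).symm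
    _ ≤ ∑ ab : Fin (L + 1) × Fin (L + 1),
          Real.exp (-((ab.1 : ℕ) + 1 : ℝ)) * Real.exp (-((ab.2 : ℕ) + 1 : ℝ)) :=
        Finset.sum_le_sum_of_subset_of_nonneg (Finset.subset_univ _) (fun _ _ _ => by positivity)
    _ = (∑ a : Fin (L + 1), Real.exp (-((a : ℕ) + 1 : ℝ))) *
          (∑ b : Fin (L + 1), Real.exp (-((b : ℕ) + 1 : ℝ))) := by
        rw [Finset.sum_mul_sum, Fintype.sum_prod_type]
    _ ≤ 1 * 1 := mul_le_mul (exp_sum L) (exp_sum L)
        (Finset.sum_nonneg (fun _ _ => (Real.exp_pos _).le)) zero_le_one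
    _ = 1 := one_mul _

/-- second union bound -/
theorem sumB (k N L : ℕ) (hN : 1 ≤ N) (J : Fin (L + 1) → Type) [∀ a, Fintype (J a)]
    (hcard : ∀ a, Fintype.card (J a) ≤ 25 ^ (N * 2 ^ ((a : ℕ) + 1))) (T : Type) [Fintype T]
    (hT : Fintype.card T ≤ 5 ^ k) :
    ∑ q : (Σ b : Fin (L + 1), J b) × T, Real.exp (-(8 * (k + N * 2 ^ (q.1.1 : ℕ) : ℝ))) ≤ 1 := by
  classical
  have hNR : (1 : ℝ) ≤ N := by exact_mod_cast hN
  rw [Fintype.sum_prod_type, Fintype.sum_sigma]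
  have hTR : (Fintype.card T : ℝ) ≤ Real.exp (8 * (k : ℝ)) := by
    have h3 : (Fintype.card T : ℝ) ≤ (5 : ℝ) ^ k := by exact_mod_cast hT
    exact h3.trans (by simpa using pow_exp k 5 8 (by norm_num) e8)
  refine le_trans (Finset.sum_le_sum (fun b _ => ?_)) (exp_sum L)
  simp only
  rw [Finset.sum_const, Finset.sum_const, Finset.card_univ, Finset.card_univ, nsmul_eq_mul,
    nsmul_eq_mul]
  have hJR : (Fintype.card (J b) : ℝ) ≤ Real.exp (7 * (N * 2 ^ (b : ℕ) : ℝ)) := by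
    have h2 : Fintype.card (J b) ≤ 625 ^ (N * 2 ^ (b : ℕ)) := by
      refine (hcard b).trans (le_of_eq ?_)
      rw [show (625 : ℕ) = 25 ^ 2 by norm_num, ← pow_mul]
      congr 1
      rw [pow_succ]; ring
    have h3 : (Fintype.card (J b) : ℝ) ≤ (625 : ℝ) ^ (N * 2 ^ (b : ℕ)) := by exact_mod_cast h2
    refine h3.trans ((pow_exp (N * 2 ^ (b : ℕ)) 625 7 (by norm_num) e7).trans (le_of_eq ?_))
    push_cast; ring_nf
  calc (Fintype.card (J b) : ℝ) * ((Fintype.card T : ℝ) *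
        Real.exp (-(8 * (k + N * 2 ^ (b : ℕ) : ℝ))))
      ≤ Real.exp (7 * (N * 2 ^ (b : ℕ) : ℝ)) * (Real.exp (8 * (k : ℝ)) *
        Real.exp (-(8 * (k + N * 2 ^ (b : ℕ) : ℝ)))) := by
        apply mul_le_mul hJR _ (by positivity) (Real.exp_pos _).le
        exact mul_le_mul_of_nonneg_right hTR (Real.exp_pos _).le
    _ = Real.exp (-(N * 2 ^ (b : ℕ) : ℝ)) := by
        rw [← Real.exp_add, ← Real.exp_add]; congr 1; ring
    _ ≤ Real.exp (-((b : ℕ) + 1 : ℝ)) := by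
        apply Real.exp_le_exp.2
        have h4 := two_pow_ge (b : ℕ)
        have h6 : (1 : ℝ) * 2 ^ (b : ℕ) ≤ N * 2 ^ (b : ℕ) :=
          mul_le_mul_of_nonneg_right hNR (by positivity)
        linarith

theorem t_GAU (hW : S_WMAX) (hDec : S_DEC) : S_GAU := by
  classical
  intro ι _ k N L hN J _ x hx hcard
  have hNR : (1 : ℝ) ≤ N := by exact_mod_cast hN
  have hN0 : (0 : ℝ) < N := by linarith
  -- the weights
  set w : ℕ → ℝ := fun b => Real.sqrt k + Real.sqrt (N * 2 ^ b) with hw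
  have hs0 : ∀ a : ℕ, 0 < Real.sqrt (N * 2 ^ a) := fun a => Real.sqrt_pos.2 (by positivity)
  have hw0 : ∀ b, 0 < w b := fun b => add_pos_of_nonneg_of_pos (Real.sqrt_nonneg _) (hs0 b)
  have hsw : ∀ a b : ℕ, sw N k a b = Real.sqrt (N * 2 ^ a) * w b := fun a b => rfl
  have hsw0 : ∀ a b : ℕ, 0 < sw N k a b := fun a b => by rw [hsw]; exact mul_pos (hs0 a) (hw0 b)
  -- the scaled families
  set x' : PX L J → EuclideanSpace ℝ ι := fun p => (1 / sw N k p.1.1.1 p.1.1.2) • x p.1.1.1 p.2.1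
    with hx'
  set y' : PX L J → EuclideanSpace ℝ ι := fun p => x p.1.1.2 p.2.2 with hy'
  have hfam : ∀ g : EuclideanSpace ℝ (Fin k × ι), (fun p : PX L J =>
      ((inner ℝ (act g (x p.1.1.1 p.2.1)) (act g (x p.1.1.2 p.2.2)) : ℝ) -
        k * inner ℝ (x p.1.1.1 p.2.1) (x p.1.1.2 p.2.2)) / sw N k p.1.1.1 p.1.1.2) =
      fun p => (inner ℝ (act g (x' p)) (act g (y' p)) : ℝ) - k * inner ℝ (x' p) (y' p) := by
    intro g
    funext p
    simp only [hx', hy']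
    rw [act_smul', real_inner_smul_left, real_inner_smul_left]
    ring
  refine ⟨?_, ?_⟩
  · apply Integrable.norm
    apply Integrable.of_eval
    intro p
    exact ((integrable_inner_act _ _).sub (integrable_const _)).div_const _
  simp_rw [hfam]
  obtain ⟨hint, hdec⟩ := hDec k ι (PX L J) x' y'
  refine hdec.trans ?_
  have hI : ∫ z : EuclideanSpace ℝ (Fin k × ι) × EuclideanSpace ℝ (Fin k × ι),
      ‖fun p => (inner ℝ (act z.1 (x' p)) (act z.2 (y' p)) : ℝ)‖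
        ∂((Gm (Fin k × ι)).prod (Gm (Fin k × ι))) ≤ 216 := by
    obtain ⟨T, hT1, hTc, hTne, hTnet⟩ := exists_net (EuclideanSpace ℝ (Fin k))
    set W : EuclideanSpace ℝ (Fin k × ι) → (Σ b : Fin (L + 1), J b) × T → ℝ := fun h q =>
      inner ℝ (tens (q.2 : EuclideanSpace ℝ (Fin k)) ((1 / w q.1.1) • x q.1.1 q.1.2)) h with hWd
    have hact : ∀ (h : EuclideanSpace ℝ (Fin k × ι)) (b : Fin (L + 1)) (j : J b),
        ‖act h (x b j)‖ ≤ 2 * (‖W h‖ * w b) := by
      intro h b j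
      apply norm_le_net T hTnet
      intro t ht
      rw [real_inner_comm, ← inner_tens]
      have h1 := norm_le_pi_norm (W h) (⟨b, j⟩, ⟨t, ht⟩)
      have h2 : W h (⟨b, j⟩, ⟨t, ht⟩) = 1 / w b * inner ℝ (tens t (x b j)) h := by
        simp only [hWd]
        rw [tens_smul', real_inner_smul_left]
      rw [h2, Real.norm_eq_abs, abs_mul, abs_of_pos (one_div_pos.2 (hw0 b)), one_div,
        inv_mul_le_iff₀ (hw0 b)] at h1
      linarith
    have hinner : ∀ h : EuclideanSpace ℝ (Fin k × ι),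
        ∫ g, ‖fun p => (inner ℝ (act g (x' p)) (act h (y' p)) : ℝ)‖ ∂(Gm (Fin k × ι)) ≤
          24 * ‖W h‖ := by
      intro h
      have e : ∀ g, (fun p => (inner ℝ (act g (x' p)) (act h (y' p)) : ℝ)) =
          fun p : PX L J => inner ℝ (tens (act h (y' p)) (x' p)) g := by
        intro g
        funext p
        rw [inner_tens, real_inner_comm]
      simp_rw [e]
      refine (hW (Fin k × ι) (PX L J) (fun p => tens (act h (y' p)) (x' p))
        (fun p => 16 * (N * 2 ^ ((p.1.1.1 : Fin (L + 1)) : ℕ) : ℝ)) (8 * ‖W h‖) (by positivity)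
        ?_ ?_ (sumA N L hN J hcard)).trans (le_of_eq (by ring))
      · intro p
        have h1 := two_pow_ge ((p.1.1.1 : Fin (L + 1)) : ℕ)
        have h2 : (1 : ℝ) * 2 ^ ((p.1.1.1 : Fin (L + 1)) : ℕ) ≤
            N * 2 ^ ((p.1.1.1 : Fin (L + 1)) : ℕ) :=
          mul_le_mul_of_nonneg_right hNR (by positivity)
        have h3 : (0 : ℝ) ≤ ((p.1.1.1 : Fin (L + 1)) : ℕ) := Nat.cast_nonneg _
        linarith
      · intro p
        have h1 := hact h p.1.1.2 p.2.2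
        have h2 := hx p.1.1.1 p.2.1
        have e1 : Real.sqrt (16 * (N * 2 ^ ((p.1.1.1 : Fin (L + 1)) : ℕ) : ℝ)) =
            4 * Real.sqrt (N * 2 ^ ((p.1.1.1 : Fin (L + 1)) : ℕ) : ℝ) := by
          rw [Real.sqrt_mul (by norm_num), show (16 : ℝ) = 4 ^ 2 by norm_num,
            Real.sqrt_sq (by norm_num)]
        rw [norm_tens, e1]
        simp only [hx', hy', norm_smul]
        rw [Real.norm_of_nonneg (one_div_pos.2 (hsw0 _ _)).le, hsw]
        have hsa := hs0 ((p.1.1.1 : Fin (L + 1)) : ℕ)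
        have hwb := hw0 ((p.1.1.2 : Fin (L + 1)) : ℕ)
        calc ‖act h (x p.1.1.2 p.2.2)‖ * (1 / (Real.sqrt (N * 2 ^ ((p.1.1.1 : Fin (L + 1)) : ℕ)) *
              w ((p.1.1.2 : Fin (L + 1)) : ℕ)) * ‖x p.1.1.1 p.2.1‖)
            ≤ (2 * (‖W h‖ * w ((p.1.1.2 : Fin (L + 1)) : ℕ))) *
              (1 / (Real.sqrt (N * 2 ^ ((p.1.1.1 : Fin (L + 1)) : ℕ)) *
              w ((p.1.1.2 : Fin (L + 1)) : ℕ)) * 1) := by
              apply mul_le_mul h1 _ (by positivity) (by positivity)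
              exact mul_le_mul_of_nonneg_left h2 (by positivity)
          _ = 8 * ‖W h‖ / (4 * Real.sqrt (N * 2 ^ ((p.1.1.1 : Fin (L + 1)) : ℕ))) := by
              field_simp
              ring
    have hWint : Integrable (fun h => ‖W h‖) (Gm (Fin k × ι)) :=
      integrable_norm_family (fun q : (Σ b : Fin (L + 1), J b) × T =>
        tens (q.2 : EuclideanSpace ℝ (Fin k)) ((1 / w q.1.1) • x q.1.1 q.1.2))
    have hWbd : ∫ h, ‖W h‖ ∂(Gm (Fin k × ι)) ≤ 9 := by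
      refine (hW (Fin k × ι) ((Σ b : Fin (L + 1), J b) × T)
        (fun q => tens (q.2 : EuclideanSpace ℝ (Fin k)) ((1 / w q.1.1) • x q.1.1 q.1.2))
        (fun q => 8 * (k + N * 2 ^ (q.1.1 : ℕ) : ℝ)) 3 (by norm_num)
        ?_ ?_ (sumB k N L hN J hcard T ?_)).trans (by norm_num)
      · intro q
        have h1 := two_pow_ge (q.1.1 : ℕ)
        have h2 : (1 : ℝ) * 2 ^ (q.1.1 : ℕ) ≤ N * 2 ^ (q.1.1 : ℕ) :=
          mul_le_mul_of_nonneg_right hNR (by positivity)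
        have h3 : (0 : ℝ) ≤ (q.1.1 : ℕ) := Nat.cast_nonneg _
        have h4 : (0 : ℝ) ≤ (k : ℝ) := Nat.cast_nonneg _
        linarith
      · intro q
        have hwb := hw0 (q.1.1 : ℕ)
        have h2 := hx q.1.1 q.1.2
        have h3 : Real.sqrt (8 * (k + N * 2 ^ (q.1.1 : ℕ) : ℝ)) ≤ 3 * w (q.1.1 : ℕ) := by
          rw [Real.sqrt_le_left (by positivity), hw, mul_pow, add_sq, Real.sq_sqrt (by positivity),
            Real.sq_sqrt (by positivity)]
          have h5 : 0 ≤ 2 * Real.sqrt k * Real.sqrt (N * 2 ^ (q.1.1 : ℕ)) := by positivity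
          have h6 : (0 : ℝ) ≤ k := Nat.cast_nonneg _
          have h7 : (0 : ℝ) ≤ N * 2 ^ (q.1.1 : ℕ) := by positivity
          linarith
        have h4 : 0 < Real.sqrt (8 * (k + N * 2 ^ (q.1.1 : ℕ) : ℝ)) :=
          Real.sqrt_pos.2 (by positivity)
        rw [norm_tens, norm_smul, Real.norm_of_nonneg (one_div_pos.2 hwb).le]
        calc ‖(q.2 : EuclideanSpace ℝ (Fin k))‖ * (1 / w (q.1.1 : ℕ) * ‖x q.1.1 q.1.2‖)
            ≤ 1 * (1 / w (q.1.1 : ℕ) * 1) := by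
              apply mul_le_mul (hT1 _ q.2.2) _ (by positivity) zero_le_one
              exact mul_le_mul_of_nonneg_left h2 (by positivity)
          _ = 1 / w (q.1.1 : ℕ) := by ring
          _ ≤ 3 / Real.sqrt (8 * (k + N * 2 ^ (q.1.1 : ℕ) : ℝ)) := by
              rw [div_le_div_iff₀ hwb h4]
              linarith
      · rw [Fintype.card_coe]
        simpa using hTc
    rw [integral_prod_symm _ hint]
    calc ∫ h, ∫ g, ‖fun p => (inner ℝ (act g (x' p)) (act h (y' p)) : ℝ)‖ ∂(Gm (Fin k × ι))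
          ∂(Gm (Fin k × ι))
        ≤ ∫ h, 24 * ‖W h‖ ∂(Gm (Fin k × ι)) :=
          integral_mono hint.integral_prod_right (hWint.const_mul _) hinner
      _ = 24 * ∫ h, ‖W h‖ ∂(Gm (Fin k × ι)) := integral_const_mul _ _
      _ ≤ 24 * 9 := mul_le_mul_of_nonneg_left hWbd (by norm_num)
      _ = 216 := by norm_num
  linarith

end Pool.Agent.Y821.GK
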