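import Pool.Agent.Y821.GK.Stm2

/-!
# Project GK: the main construction from its parts (adapted from `Pool.Agent.H102R3.SCZ`)
-/

set_option autoImplicit false

open MeasureTheory ProbabilityTheory Matrix Pool.H102.SC

namespace Pool.Agent.Y821.GK

theorem bil_smul_mat {N : ℕ} (c : ℝ) (R : Matrix (Fin N × Fin N) (Fin N × Fin N) ℝ)
    (X Y : Matrix (Fin N) (Fin N) ℝ) : bil (c • R) X Y = c * bil R X Y := by
  rw [bil_apply, bil_apply, Finset.mul_sum]
  apply Finset.sum_congr rfl; intro p _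
  rw [← mul_assoc, Finset.mul_sum]
  congr 1
  apply Finset.sum_congr rfl; intro q _
  rw [Matrix.smul_apply, smul_eq_mul]; ring

/-- the bilinear form of the centred projection on normalised pieces -/
theorem bil_bound (hS : S_SUM) (hB : S_BLK) (hNT : S_NET) {N k m : ℕ} (hN : 1 ≤ N)
    (e₀ : Fin N × Fin N ≃ Fin k ⊕ Fin m) (U : Og (Fin N × Fin N)) (hsym : (Rm e₀ U)ᵀ = Rm e₀ U)
    (hU : ∀ a b : ℕ, b ≤ a → a ≤ Nat.log 2 N →
      ∀ (j : Jg N a) (j' : Jg N b), |bil (Rm e₀ U) (gm j) (gm j')| ≤ 432 * sw N k a b)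
    (t : ℝ) (ht0 : 0 < t) (ht : t ≤ 1 / 2)
    (u v u' v' : Fin N → EuclideanSpace ℝ (Fin N)) (huv : Orth u v) (huv' : Orth u' v')
    (c d : Fin N → ℝ) (hc0 : ∀ i, 0 ≤ c i) (hd0 : ∀ i, 0 ≤ d i) (hca : Antitone c)
    (hda : Antitone d) (hc : ∑ i, c i ^ (1 / (1 - t)) ≤ 1) (hd : ∑ i, d i ^ (1 / (1 - t)) ≤ 1) :
    |bil (Rm e₀ U) (piece u v c Finset.univ) (piece u' v' d Finset.univ)| ≤
      55296 * ((N : ℝ) ^ (1 + 2 * t) + Real.sqrt k * (N : ℝ) ^ (1 / 2 + t)) := by
  obtain ⟨h1, h2⟩ := hS N t hN ht0 ht c hc0 hca hc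
  obtain ⟨h3, h4⟩ := hS N t hN ht0 ht d hd0 hda hd
  have hNR : (1 : ℝ) ≤ N := by exact_mod_cast hN
  have hN0 : (0 : ℝ) < N := by linarith
  have h := hB N k hN (Rm e₀ U) hsym 6912 (by norm_num)
    (fun a b hba ha u v u' v' huv huv' c d J J' hJ hJ' hc hd => by
      have := hNT.2.2 N a b (Rm e₀ U) (432 * sw N k a b) (hU a b hba ha) u v u' v' huv huv' c d J J'
        hJ hJ' hc hd
      refine this.trans (le_of_eq ?_)
      rw [sw]; ring)
    u v u' v' huv huv' c d h2 h4 _ _ h1 h3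
  refine h.trans (le_of_eq ?_)
  have e1 : (N : ℝ) ^ (1 + 2 * t) = N * ((N : ℝ) ^ t * (N : ℝ) ^ t) := by
    rw [← Real.rpow_add hN0]
    have := Real.rpow_add hN0 1 (t + t)
    rw [Real.rpow_one] at this
    rw [← this]
    congr 1; ring
  have e2 : Real.sqrt k * (N : ℝ) ^ (1 / 2 + t) = Real.sqrt (k * N) * (N : ℝ) ^ t := by
    rw [Real.sqrt_mul (by positivity), Real.rpow_add hN0, Real.sqrt_eq_rpow (N : ℝ)]
    ring
  rw [e1, e2]
  ring

theorem t_MAIN (hD : S_DUAL) (hS : S_SUM) (hB : S_BLK) (hNT : S_NET) (hP : S_PROJ) : S_MAIN := by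
  classical
  refine ⟨55296, by norm_num, ?_⟩
  intro N k hN hk hkN
  have hNR : (1 : ℝ) ≤ N := by exact_mod_cast hN
  have hN0 : (0 : ℝ) < N := by linarith
  have hkR : (k : ℝ) < N * N := by exact_mod_cast hkN
  set m : ℕ := N * N - k with hm
  let e₀ : Fin N × Fin N ≃ Fin k ⊕ Fin m := Fintype.equivOfCardEq (by simp; omega)
  obtain ⟨U, hsym, hU⟩ := hP N k m hN hk e₀
  set P : Matrix (Fin N × Fin N) (Fin N × Fin N) ℝ :=
    diagonal (fun x => if (e₀ x).isLeft then (1 : ℝ) else 0) with hPd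
  set R : Matrix (Fin N × Fin N) (Fin N × Fin N) ℝ :=
    star (U : Matrix (Fin N × Fin N) (Fin N × Fin N) ℝ) * P *
      (U : Matrix (Fin N × Fin N) (Fin N × Fin N) ℝ) with hR
  have hDp : (0 : ℝ) < N * N - k := by linarith
  set M : Matrix (Fin N × Fin N) (Fin N × Fin N) ℝ := (((N : ℝ) * N) / (N * N - k)) • (1 - R)
    with hM
  have hUU : star (U : Matrix (Fin N × Fin N) (Fin N × Fin N) ℝ) *
      (U : Matrix (Fin N × Fin N) (Fin N × Fin N) ℝ) = 1 :=
    Matrix.mem_unitaryGroup_iff'.1 U.2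
  refine ⟨opL M, ?_, ?_⟩
  · refine (opL_rank M).trans ?_
    have h1 : M = star (U : Matrix (Fin N × Fin N) (Fin N × Fin N) ℝ) *
        ((((N : ℝ) * N) / (N * N - k)) • (1 - P)) *
        (U : Matrix (Fin N × Fin N) (Fin N × Fin N) ℝ) := by
      rw [hM, hR, Matrix.mul_smul, Matrix.smul_mul, Matrix.mul_sub, Matrix.sub_mul, Matrix.mul_one,
        hUU]
    have h2 : (((N : ℝ) * N) / (N * N - k)) • (1 - P) = diagonal (fun x =>
        (((N : ℝ) * N) / (N * N - k)) * (if (e₀ x).isLeft then (0 : ℝ) else 1)) := by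
      ext x y
      by_cases hxy : x = y
      · subst hxy
        simp only [hPd, Matrix.smul_apply, Matrix.sub_apply, Matrix.one_apply_eq, diagonal_apply_eq,
          smul_eq_mul]
        split_ifs <;> ring
      · simp [hPd, hxy]
    rw [h1]
    refine (Matrix.rank_mul_le_left _ _).trans ((Matrix.rank_mul_le_right _ _).trans ?_)
    rw [h2, Matrix.rank_diagonal]
    have h3 : Fintype.card {x : Fin N × Fin N // (((N : ℝ) * N) / (N * N - k)) *
        (if (e₀ x).isLeft then (0 : ℝ) else 1) ≠ 0} ≤ Fintype.card (Fin m) := by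
      let f : {x : Fin N × Fin N // (((N : ℝ) * N) / (N * N - k)) *
        (if (e₀ x).isLeft then (0 : ℝ) else 1) ≠ 0} → {y : Fin k ⊕ Fin m // ¬ y.isLeft} :=
        fun x => ⟨e₀ x.1, by
          intro h
          apply x.2
          rw [if_pos h, mul_zero]⟩
      have hf : Function.Injective f := by
        intro x y hxy
        have := congrArg Subtype.val hxy
        exact Subtype.ext (e₀.injective this)
      have h4 := Fintype.card_le_of_injective f hf
      have h5 : Fintype.card {y : Fin k ⊕ Fin m // ¬ y.isLeft} ≤ Fintype.card (Fin m) := by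
        apply Fintype.card_le_of_surjective (fun j : Fin m =>
          (⟨Sum.inr j, by simp⟩ : {y : Fin k ⊕ Fin m // ¬ y.isLeft}))
        rintro ⟨y, hy⟩
        rcases y with i | j
        · simp at hy
        · exact ⟨j, rfl⟩
      exact h4.trans h5
    simpa using h3
  · intro t ht0 ht A
    have h1 : A - opL M A = opm (1 - M) A := by
      rw [opm_sub, opm_one]; rfl
    rw [h1]
    have h2 : (1 : Matrix (Fin N × Fin N) (Fin N × Fin N) ℝ) - M =
        (1 / ((N : ℝ) * N - k)) • Rm e₀ U := by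
      rw [Rm, Matrix.mul_smul, Matrix.smul_mul, ← hPd, ← hR, hM, Fintype.card_prod, Fintype.card_fin]
      push_cast
      ext x y
      simp only [Matrix.sub_apply, Matrix.smul_apply, smul_eq_mul]
      have hD' : (N : ℝ) * N - k ≠ 0 := hDp.ne'
      have hD2 : (N : ℝ) ^ 2 - k ≠ 0 := by rw [pow_two]; exact hD'
      field_simp
      ring
    have ht1 : 0 < 1 - t := by linarith
    apply hD N (1 / (1 - t)) (1 / t) (by rw [lt_div_iff₀ ht0]; linarith)
      (by rw [one_div_one_div, one_div_one_div]; ring) (1 - M) _ (by positivity)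
    intro u v u' v' huv huv' c d hc0 hd0 hca hda hc hd
    have h3 := bil_bound hS hB hNT hN e₀ U hsym hU t ht0 ht u v u' v' huv huv' c d hc0 hd0 hca hda
      hc hd
    rw [h2, bil_smul_mat, abs_mul, abs_of_pos (by positivity : (0 : ℝ) < 1 / ((N : ℝ) * N - k))]
    calc 1 / ((N : ℝ) * N - k) * |bil (Rm e₀ U) (piece u v c Finset.univ)
          (piece u' v' d Finset.univ)|
        ≤ 1 / ((N : ℝ) * N - k) * (55296 * ((N : ℝ) ^ (1 + 2 * t) +
          Real.sqrt k * (N : ℝ) ^ (1 / 2 + t))) :=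
          mul_le_mul_of_nonneg_left h3 (by positivity)
      _ = _ := by ring

end Pool.Agent.Y821.GK
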