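import Pool.Agent.Y821.GK.Stm2

/-!
# Project GK: nets of blocks (operator norm times Frobenius norm)
-/

set_option autoImplicit false

open MeasureTheory ProbabilityTheory Matrix Pool.H102.SC
open scoped Matrix.Norms.L2Operator

namespace Pool.Agent.Y821.GK

variable {N : ℕ}

theorem Fn_spec (N r : ℕ) : (∀ t ∈ Fn N r, ‖t‖ ≤ 1) ∧ (Fn N r).card ≤ 5 ^ (N * r) ∧
    (Fn N r).Nonempty ∧ ∀ x : EuclideanSpace ℝ (Fin N × Fin r), ‖x‖ ≤ 1 →
      ∃ t ∈ Fn N r, ‖x - t‖ ≤ 1 / 2 := by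
  have h := Classical.choose_spec (exists_net (EuclideanSpace ℝ (Fin N × Fin r)))
  refine ⟨h.1, h.2.1.trans (le_of_eq ?_), h.2.2.1, h.2.2.2⟩
  rw [finrank_euclideanSpace, Fintype.card_prod, Fintype.card_fin, Fintype.card_fin]

theorem toM_add {r : ℕ} (V W : EuclideanSpace ℝ (Fin N × Fin r)) : toM (V + W) = toM V + toM W := by
  ext i j; rfl

theorem toM_smul {r : ℕ} (c : ℝ) (V : EuclideanSpace ℝ (Fin N × Fin r)) :
    toM (c • V) = c • toM V := by
  ext i j; rfl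

theorem frob_prod {r : ℕ} (U : Matrix (Fin N) (Fin r) ℝ) (V : EuclideanSpace ℝ (Fin N × Fin r))
    (hU : ‖U‖ ≤ 1) : ∑ x, ∑ y, (U * (toM V)ᵀ) x y ^ 2 ≤ ‖V‖ ^ 2 := by
  rw [Finset.sum_comm, EuclideanSpace.real_norm_sq_eq, Fintype.sum_prod_type]
  apply Finset.sum_le_sum; intro y _
  have h := mulVec_sq U hU (fun t => V (y, t))
  have e : ∀ x, (U * (toM V)ᵀ) x y = (U *ᵥ (fun t => V (y, t))) x := by
    intro x
    rw [Matrix.mul_apply]; rfl
  simp_rw [e]
  exact h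

theorem sq_single {r : ℕ} (J : Finset (Fin N)) (f : Fin N → Fin r) (hf : Set.InjOn f J)
    (w : Fin N → ℝ) (t : Fin r) :
    (∑ i ∈ J, if f i = t then w i else 0) ^ 2 = ∑ i ∈ J, if f i = t then w i ^ 2 else 0 := by
  rw [pow_two, Finset.sum_mul]
  apply Finset.sum_congr rfl; intro i hi
  by_cases h : f i = t
  · rw [if_pos h, if_pos h, pow_two]
    congr 1
    rw [Finset.sum_eq_single i]
    · rw [if_pos h]
    · intro j hj hji
      rw [if_neg]
      intro h2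
      exact hji (hf hj hi (h2.trans h.symm))
    · intro h3; exact absurd hi h3
  · rw [if_neg h, if_neg h, zero_mul]

theorem block2 {r : ℕ} (hr : 1 ≤ r) (u v : Fin N → EuclideanSpace ℝ (Fin N)) (huv : Orth u v)
    (J : Finset (Fin N)) (hJ : J.card ≤ r) (c : Fin N → ℝ) (hc : ∑ i ∈ J, c i ^ 2 ≤ 1) :
    ∃ (U : Matrix (Fin N) (Fin r) ℝ) (V : EuclideanSpace ℝ (Fin N × Fin r)), ‖U‖ ≤ 1 ∧ ‖V‖ ≤ 1 ∧
      U * (toM V)ᵀ = piece u v c J := by
  obtain ⟨f, hf⟩ := exists_index hr J hJ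
  refine ⟨Matrix.of fun (x : Fin N) (t : Fin r) => ∑ i ∈ J, if f i = t then u i x else 0,
    WithLp.toLp 2 (fun p => ∑ i ∈ J, if f i = p.2 then (c i • v i) p.1 else 0),
    opnorm_block u J f hf (fun i _ j _ h => huv.hu i j h) (fun i _ => huv.hu1 i), ?_, ?_⟩
  · have h1 : ‖(WithLp.toLp 2 (fun p : Fin N × Fin r => ∑ i ∈ J, if f i = p.2 then
        (c i • v i) p.1 else 0) : EuclideanSpace ℝ (Fin N × Fin r))‖ ^ 2 ≤ 1 ^ 2 := by
      rw [EuclideanSpace.real_norm_sq_eq, Fintype.sum_prod_type]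
      simp only
      calc ∑ x : Fin N, ∑ t : Fin r, (∑ i ∈ J, if f i = t then (c i • v i) x else 0) ^ 2
          = ∑ x : Fin N, ∑ t : Fin r, ∑ i ∈ J, (if f i = t then ((c i • v i) x) ^ 2 else 0) := by
            apply Finset.sum_congr rfl; intro x _
            apply Finset.sum_congr rfl; intro t _
            exact sq_single J f hf (fun i => (c i • v i) x) t
        _ = ∑ x : Fin N, ∑ i ∈ J, ((c i • v i) x) ^ 2 := by
            apply Finset.sum_congr rfl; intro x _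
            rw [Finset.sum_comm]
            apply Finset.sum_congr rfl; intro i _
            rw [Finset.sum_ite_eq]
            simp
        _ = ∑ i ∈ J, ‖c i • v i‖ ^ 2 := by
            rw [Finset.sum_comm]
            apply Finset.sum_congr rfl; intro i _
            rw [EuclideanSpace.real_norm_sq_eq]
        _ ≤ ∑ i ∈ J, c i ^ 2 := by
            apply Finset.sum_le_sum; intro i _
            rw [norm_smul, mul_pow, Real.norm_eq_abs, sq_abs]
            have h5 : ‖v i‖ ^ 2 ≤ 1 := pow_le_one₀ (norm_nonneg _) (huv.hv1 i)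
            nlinarith [sq_nonneg (c i)]
        _ ≤ 1 := hc
        _ = 1 ^ 2 := (one_pow 2).symm
    exact (sq_le_sq₀ (norm_nonneg _) zero_le_one).1 h1
  · ext x y
    rw [Matrix.mul_apply]
    simp only [transpose_apply, of_apply, toM, piece]
    have e : ∀ t : Fin r, (∑ i ∈ J, if f i = t then u i x else 0) *
        (∑ i ∈ J, if f i = t then (c i • v i) y else 0) =
        ∑ i ∈ J, if f i = t then u i x * (c i • v i) y else 0 := by
      intro t
      rw [Finset.sum_mul]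
      apply Finset.sum_congr rfl; intro i hi
      by_cases h : f i = t
      · rw [if_pos h, if_pos h]
        congr 1
        rw [Finset.sum_eq_single i]
        · rw [if_pos h]
        · intro j hj hji
          rw [if_neg]
          intro h2
          exact hji (hf hj hi (h2.trans h.symm))
        · intro h3; exact absurd hi h3
      · rw [if_neg h, if_neg h, zero_mul]
    simp_rw [e]
    rw [Finset.sum_comm]
    apply Finset.sum_congr rfl; intro i _
    rw [Finset.sum_ite_eq]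
    simp
    ring

theorem four_bound2 {r : ℕ} (F : Matrix (Fin N) (Fin N) ℝ →ₗ[ℝ] ℝ) (m : ℝ)
    (hm : ∀ U ∈ Tn N r, ∀ V ∈ Fn N r, |F (U * (toM V)ᵀ)| ≤ m) (U : Matrix (Fin N) (Fin r) ℝ)
    (V : EuclideanSpace ℝ (Fin N × Fin r))
    (hU : ‖U‖ ≤ 1) (hV : ‖V‖ ≤ 1) : |F (U * (toM V)ᵀ)| ≤ 4 * m := by
  obtain ⟨-, -, -, hnet⟩ := Tn_spec N r
  obtain ⟨-, -, -, hnet2⟩ := Fn_spec N r
  have h1 : ∀ V ∈ Fn N r, |F (U * (toM V)ᵀ)| ≤ 2 * m := by
    intro V hV
    let l : Matrix (Fin N) (Fin r) ℝ →ₗ[ℝ] ℝ :=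
      { toFun := fun U => F (U * (toM V)ᵀ)
        map_add' := fun A B => by rw [Matrix.add_mul, map_add]
        map_smul' := fun a A => by rw [Matrix.smul_mul, map_smul]; rfl }
    exact functional_bound (Tn N r) hnet l m (fun U hU => hm U hU V hV) U hU
  let l : EuclideanSpace ℝ (Fin N × Fin r) →ₗ[ℝ] ℝ :=
    { toFun := fun V => F (U * (toM V)ᵀ)
      map_add' := fun A B => by rw [toM_add, Matrix.transpose_add, Matrix.mul_add, map_add]
      map_smul' := fun a A => by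
        rw [toM_smul, Matrix.transpose_smul, Matrix.mul_smul, map_smul]; rfl }
  have h2 := functional_bound (Fn N r) hnet2 l (2 * m) h1 V hV
  have h3 : l V = F (U * (toM V)ᵀ) := rfl
  rw [h3] at h2
  linarith

theorem t_NET : S_NET := by
  refine ⟨?_, ?_, ?_⟩
  · intro N a j
    have h1 : ‖gv j‖ ^ 2 ≤ 1 ^ 2 := by
      rw [EuclideanSpace.real_norm_sq_eq, Fintype.sum_prod_type]
      have h2 := frob_prod j.1.1 j.2.1 ((Tn_spec N (2 ^ (a + 1))).1 _ j.1.2)
      have h3 : ‖(j.2.1 : EuclideanSpace ℝ (Fin N × Fin (2 ^ (a + 1))))‖ ^ 2 ≤ 1 ^ 2 :=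
        pow_le_pow_left₀ (norm_nonneg _) ((Fn_spec N (2 ^ (a + 1))).1 _ j.2.2) 2
      exact h2.trans h3
    exact (sq_le_sq₀ (norm_nonneg _) zero_le_one).1 h1
  · intro N a
    rw [Fintype.card_prod, Fintype.card_coe, Fintype.card_coe]
    calc (Tn N (2 ^ (a + 1))).card * (Fn N (2 ^ (a + 1))).card
        ≤ 5 ^ (N * 2 ^ (a + 1)) * 5 ^ (N * 2 ^ (a + 1)) :=
          Nat.mul_le_mul (Tn_spec N (2 ^ (a + 1))).2.1 (Fn_spec N (2 ^ (a + 1))).2.1
      _ = 25 ^ (N * 2 ^ (a + 1)) := by rw [← Nat.mul_pow]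
  · intro N a b R m hm u v u' v' huv huv' c d J J' hJ hJ' hc hd
    obtain ⟨U, V, hU, hV, hUV⟩ := block2 Nat.one_le_two_pow u v huv J hJ c hc
    obtain ⟨U', V', hU', hV', hUV'⟩ := block2 Nat.one_le_two_pow u' v' huv' J' hJ' d hd
    rw [← hUV, ← hUV']
    have h1 : ∀ U' ∈ Tn N (2 ^ (b + 1)), ∀ V' ∈ Fn N (2 ^ (b + 1)),
        |bil R (U * (toM V)ᵀ) (U' * (toM V')ᵀ)| ≤ 4 * m := by
      intro U' hU' V' hV'
      exact four_bound2 ((bil R).flip (U' * (toM V')ᵀ)) m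
        (fun U hU V hV => hm (⟨U, hU⟩, ⟨V, hV⟩) (⟨U', hU'⟩, ⟨V', hV'⟩)) U V hU hV
    have h2 := four_bound2 (bil R (U * (toM V)ᵀ)) (4 * m) h1 U' V' hU' hV'
    linarith

end Pool.Agent.Y821.GK
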