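import Pool.Agent.Y821.GK.Main

/-!
# Project GK: a good projection for all levels (adapted from `Pool.Agent.H102R3.SCF`)
-/

set_option autoImplicit false

open MeasureTheory ProbabilityTheory Matrix Pool.H102.SC

namespace Pool.Agent.Y821.GK

variable {N : ℕ}

theorem bil_add_mat (R R' : Matrix (Fin N × Fin N) (Fin N × Fin N) ℝ)
    (X Y : Matrix (Fin N) (Fin N) ℝ) : bil (R + R') X Y = bil R X Y + bil R' X Y := by
  rw [bil_apply, bil_apply, bil_apply, ← Finset.sum_add_distrib]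
  apply Finset.sum_congr rfl; intro p _
  rw [← add_mul, ← Finset.sum_add_distrib]
  congr 1
  apply Finset.sum_congr rfl; intro q _
  rw [Matrix.add_apply]; ring

theorem bil_gv {a b : ℕ} (R : Matrix (Fin N × Fin N) (Fin N × Fin N) ℝ) (j : Jg N a) (j' : Jg N b) :
    bil R (gm j) (gm j') = (R *ᵥ (gv j).ofLp) ⬝ᵥ (gv j').ofLp := rfl

theorem bil_wishart {k a b : ℕ} (U : Og (Fin N × Fin N))
    (g : EuclideanSpace ℝ (Fin k × (Fin N × Fin N))) (j : Jg N a) (j' : Jg N b) :
    bil (star (U : Matrix (Fin N × Fin N) (Fin N × Fin N) ℝ) * Wm g *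
      (U : Matrix (Fin N × Fin N) (Fin N × Fin N) ℝ) - (k : ℝ) • 1) (gm j) (gm j') =
      inner ℝ (act g (rot U (gv j))) (act g (rot U (gv j'))) -
        k * inner ℝ (rot U (gv j)) (rot U (gv j')) := by
  rw [bil_gv, inner_rot, ← wm_dot, Matrix.sub_mulVec, sub_dotProduct]
  have hs : star (U : Matrix (Fin N × Fin N) (Fin N × Fin N) ℝ) =
      (U : Matrix (Fin N × Fin N) (Fin N × Fin N) ℝ)ᵀ := by
    ext i j; simp [Matrix.star_apply]
  congr 1
  · rw [hs, Matrix.mul_assoc, ← Matrix.mulVec_mulVec, Matrix.mulVec_transpose,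
      ← Matrix.dotProduct_mulVec, ← Matrix.mulVec_mulVec]
    rfl
  · rw [Matrix.smul_mulVec, Matrix.one_mulVec, smul_dotProduct, smul_eq_mul, inner_eq_dot]

/-- evaluation on the nets -/
noncomputable def Psi (N k L : ℕ) : Matrix (Fin N × Fin N) (Fin N × Fin N) ℝ →ₗ[ℝ]
    (PX L (fun a : Fin (L + 1) => Jg N (a : ℕ)) → ℝ) where
  toFun R p := bil R (gm p.2.1) (gm p.2.2) / sw N k p.1.1.1 p.1.1.2
  map_add' R R' := by
    funext p
    rw [Pi.add_apply, bil_add_mat, add_div]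
  map_smul' c R := by
    funext p
    rw [Pi.smul_apply, smul_eq_mul, bil_smul_mat, mul_div_assoc, RingHom.id_apply]

noncomputable def nuP (N k L : ℕ) : Seminorm ℝ (Matrix (Fin N × Fin N) (Fin N × Fin N) ℝ) :=
  Seminorm.of (fun R => ‖Psi N k L R‖)
    (fun R R' => by rw [map_add]; exact norm_add_le _ _)
    (fun c R => by rw [map_smul, norm_smul])

theorem nuP_apply (N k L : ℕ) (R : Matrix (Fin N × Fin N) (Fin N × Fin N) ℝ) :
    nuP N k L R = ‖Psi N k L R‖ := rfl

theorem nuP_cont (N k L : ℕ) : Continuous (nuP N k L) := by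
  have : Continuous (fun R => ‖Psi N k L R‖) := (Psi N k L).continuous_of_finiteDimensional.norm
  exact this

theorem sw_pos (N k a b : ℕ) (hN : 1 ≤ N) : 0 < sw N k a b := by
  have hNR : (1 : ℝ) ≤ N := by exact_mod_cast hN
  rw [sw]
  have h1 : 0 < Real.sqrt (N * 2 ^ a) := Real.sqrt_pos.2 (by positivity)
  have h2 : 0 < Real.sqrt (N * 2 ^ b) := Real.sqrt_pos.2 (by positivity)
  have h3 := Real.sqrt_nonneg (k : ℝ)
  positivity

theorem t_PROJ (hNT : S_NET) (hG : S_GAU) : S_PROJ := by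
  classical
  intro N k m hN hk e₀
  set L := Nat.log 2 N with hL
  have hB : ∀ U : Og (Fin N × Fin N), ∫ g, nuP N k L (star (U : Matrix (Fin N × Fin N)
      (Fin N × Fin N) ℝ) * Wm g * (U : Matrix (Fin N × Fin N) (Fin N × Fin N) ℝ) - (k : ℝ) • 1)
      ∂(Gm (Fin k × (Fin N × Fin N))) ≤ 432 := by
    intro U
    have h := (hG (Fin N × Fin N) k N L hN (fun a : Fin (L + 1) => Jg N (a : ℕ))
      (fun a j => rot U (gv j)) (fun a j => by rw [norm_rot]; exact hNT.1 N a j)
      (fun a => hNT.2.1 N a)).2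
    refine le_trans (le_of_eq ?_) h
    apply integral_congr_ae
    filter_upwards with g
    rw [nuP_apply]
    congr 1
    funext p
    show bil _ (gm p.2.1) (gm p.2.2) / sw N k p.1.1.1 p.1.1.2 = _
    rw [bil_wishart]
  obtain ⟨U, hU⟩ := exists_projection (nuP N k L) (nuP_cont N k L) hk e₀ 432 hB
  refine ⟨U, ?_, ?_⟩
  · have hs : star (U : Matrix (Fin N × Fin N) (Fin N × Fin N) ℝ) =
        (U : Matrix (Fin N × Fin N) (Fin N × Fin N) ℝ)ᵀ := by
      ext i j; simp [Matrix.star_apply]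
    rw [Rm, hs, Matrix.transpose_sub, Matrix.transpose_mul, Matrix.transpose_mul,
      Matrix.transpose_transpose, Matrix.transpose_smul, Matrix.diagonal_transpose,
      Matrix.transpose_smul, Matrix.transpose_one, Matrix.mul_assoc]
  · intro a b hba ha j j'
    have hs0 := sw_pos N k a b hN
    have ha' : a < L + 1 := by omega
    have hb' : b < L + 1 := by omega
    let p : PX L (fun a : Fin (L + 1) => Jg N (a : ℕ)) :=
      ⟨⟨(⟨a, ha'⟩, ⟨b, hb'⟩), hba⟩, (j, j')⟩
    have h1 := norm_le_pi_norm (Psi N k L (Rm e₀ U)) p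
    have h2 : Psi N k L (Rm e₀ U) p = bil (Rm e₀ U) (gm j) (gm j') / sw N k a b := rfl
    rw [h2, Real.norm_eq_abs, abs_div, abs_of_pos hs0] at h1
    have h3 : ‖Psi N k L (Rm e₀ U)‖ ≤ 432 := hU
    rw [div_le_iff₀ hs0] at h1
    calc |bil (Rm e₀ U) (gm j) (gm j')| ≤ ‖Psi N k L (Rm e₀ U)‖ * sw N k a b := h1
      _ ≤ 432 * sw N k a b := mul_le_mul_of_nonneg_right h3 hs0.le

end Pool.Agent.Y821.GK
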