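import Pool.Agent.Y821.GK.Stm

/-!
# Project GK: Gaussian maxima with weights, decoupling for a general family of pairs
-/

set_option autoImplicit false

open MeasureTheory ProbabilityTheory Matrix Pool.H102.SC

namespace Pool.Agent.Y821.GK

theorem t_WMAX : S_WMAX := by
  classical
  intro I J _ _ c l H hH hl hc hsum
  rcases hH.eq_or_lt with h0 | hH0
  · have : ∀ j, c j = 0 := fun j => by
      have := hc j
      rw [← h0, zero_div] at this
      exact norm_le_zero_iff.1 this
    simp only [this, inner_zero_left]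
    have h3 : (fun _ : J => (0 : ℝ)) = 0 := rfl
    rw [h3, ← h0]
    simp
  have hl0 : ∀ j, 0 < l j := fun j => lt_of_lt_of_le one_pos (hl j)
  set a : J → ℝ := fun j => 2 * l j / H with ha
  have ha0 : ∀ j, 0 < a j := fun j => by rw [ha]; have := hl0 j; positivity
  set E : EuclideanSpace ℝ I → J → ℝ := fun g j => Real.exp (-(4 * l j)) *
    (Real.exp (inner ℝ (a j • c j) g) + Real.exp (inner ℝ (-(a j • c j)) g)) with hE
  have hE0 : ∀ g j, 0 ≤ E g j := fun g j => by rw [hE]; positivity
  have hpt : ∀ g : EuclideanSpace ℝ I, ‖fun j => inner ℝ (c j) g‖ ≤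
      2 * H + H / 2 * ∑ j, E g j := by
    intro g
    have hnn : 0 ≤ 2 * H + H / 2 * ∑ j, E g j := by
      have := Finset.sum_nonneg (fun j (_ : j ∈ Finset.univ) => hE0 g j)
      positivity
    rw [pi_norm_le_iff_of_nonneg hnn]
    intro j
    rw [Real.norm_eq_abs]
    have h1 : Real.exp (a j * |inner ℝ (c j) g|) ≤ Real.exp (inner ℝ (a j • c j) g) +
        Real.exp (inner ℝ (-(a j • c j)) g) := by
      rcases abs_cases (inner ℝ (c j) g) with ⟨h, -⟩ | ⟨h, -⟩
      · rw [h, inner_smul_left]
        have := Real.exp_pos (inner ℝ (-(a j • c j)) g)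
        simp only [conj_trivial]
        linarith
      · rw [h, inner_neg_left, inner_smul_left]
        have := Real.exp_pos (inner ℝ (a j • c j) g)
        rw [inner_smul_left] at this
        simp only [conj_trivial] at this ⊢
        have e : a j * -inner ℝ (c j) g = -(a j * inner ℝ (c j) g) := by ring
        rw [e]
        linarith
    have h2 : Real.exp (a j * |inner ℝ (c j) g| - 4 * l j) ≤ E g j := by
      rw [sub_eq_neg_add, Real.exp_add]
      exact mul_le_mul_of_nonneg_left h1 (Real.exp_pos _).le
    have h3 : a j * |inner ℝ (c j) g| - 4 * l j ≤ E g j := by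
      have := Real.add_one_le_exp (a j * |inner ℝ (c j) g| - 4 * l j)
      linarith
    have h4 : E g j ≤ ∑ j, E g j :=
      Finset.single_le_sum (f := fun j => E g j) (fun i _ => hE0 g i) (Finset.mem_univ j)
    have h5 : |inner ℝ (c j) g| = (H / (2 * l j)) * (a j * |inner ℝ (c j) g| - 4 * l j) + 2 * H := by
      have := (hl0 j).ne'
      have := hH0.ne'
      rw [ha]
      field_simp
      ring
    rw [h5]
    have h6 : H / (2 * l j) ≤ H / 2 := by
      apply div_le_div_of_nonneg_left hH0.le (by norm_num)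
      have := hl j
      linarith
    have h7 : 0 ≤ H / (2 * l j) := by have := hl0 j; positivity
    calc (H / (2 * l j)) * (a j * |inner ℝ (c j) g| - 4 * l j) + 2 * H
        ≤ (H / (2 * l j)) * E g j + 2 * H := by
          have := mul_le_mul_of_nonneg_left h3 h7
          linarith
      _ ≤ H / 2 * E g j + 2 * H := by
          have := mul_le_mul_of_nonneg_right h6 (hE0 g j)
          linarith
      _ ≤ H / 2 * ∑ j, E g j + 2 * H := by
          have := mul_le_mul_of_nonneg_left h4 (by positivity : (0 : ℝ) ≤ H / 2)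
          linarith
      _ = _ := by ring
  have hint : ∀ j, Integrable (fun g => E g j) (Gm I) := fun j =>
    ((integrable_exp_lin _).add (integrable_exp_lin _)).const_mul _
  have hval : ∀ j, ∫ g, E g j ∂(Gm I) ≤ 2 * Real.exp (-l j) := by
    intro j
    simp only [hE]
    rw [integral_const_mul, integral_add (integrable_exp_lin _) (integrable_exp_lin _), mgf_lin,
      mgf_lin, norm_neg, norm_smul, Real.norm_of_nonneg (ha0 j).le, mul_pow]
    have hlj := hl0 j
    have h1 : ‖c j‖ ^ 2 ≤ H ^ 2 / l j := by
      have h := pow_le_pow_left₀ (norm_nonneg _) (hc j) 2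
      rwa [div_pow, Real.sq_sqrt hlj.le] at h
    have h2 : a j ^ 2 * ‖c j‖ ^ 2 / 2 ≤ 2 * l j := by
      calc a j ^ 2 * ‖c j‖ ^ 2 / 2 ≤ a j ^ 2 * (H ^ 2 / l j) / 2 := by
            have := mul_le_mul_of_nonneg_left h1 (sq_nonneg (a j))
            linarith
        _ = 2 * l j := by
            rw [ha]
            field_simp
    have h3 : Real.exp (a j ^ 2 * ‖c j‖ ^ 2 / 2) ≤ Real.exp (2 * l j) := Real.exp_le_exp.2 h2
    calc Real.exp (-(4 * l j)) * (Real.exp (a j ^ 2 * ‖c j‖ ^ 2 / 2) +
          Real.exp (a j ^ 2 * ‖c j‖ ^ 2 / 2))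
        ≤ Real.exp (-(4 * l j)) * (Real.exp (2 * l j) + Real.exp (2 * l j)) :=
          mul_le_mul_of_nonneg_left (by linarith) (Real.exp_pos _).le
      _ = 2 * Real.exp (-(2 * l j)) := by
          rw [← two_mul, mul_left_comm, ← Real.exp_add]
          congr 2; ring
      _ ≤ 2 * Real.exp (-l j) := by
          have : Real.exp (-(2 * l j)) ≤ Real.exp (-l j) := Real.exp_le_exp.2 (by linarith)
          linarith
  calc ∫ g, ‖fun j => inner ℝ (c j) g‖ ∂(Gm I)
      ≤ ∫ g, (2 * H + H / 2 * ∑ j, E g j) ∂(Gm I) := by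
        apply integral_mono (integrable_norm_family c) _ hpt
        exact (integrable_const _).add ((integrable_finsetSum _ (fun j _ => hint j)).const_mul _)
    _ = 2 * H + H / 2 * ∑ j, ∫ g, E g j ∂(Gm I) := by
        have e1 : ∫ g, H / 2 * ∑ j, E g j ∂(Gm I) = H / 2 * ∑ j, ∫ g, E g j ∂(Gm I) := by
          rw [integral_const_mul, integral_finsetSum _ (fun j _ => hint j)]
        rw [integral_add (integrable_const _)
          ((integrable_finsetSum _ (fun j _ => hint j)).const_mul _), e1]
        simp
    _ ≤ 2 * H + H / 2 * ∑ j, 2 * Real.exp (-l j) := by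
        have := Finset.sum_le_sum (fun j (_ : j ∈ Finset.univ) => hval j)
        have := mul_le_mul_of_nonneg_left this (by positivity : (0 : ℝ) ≤ H / 2)
        linarith
    _ = 2 * H + H * ∑ j, Real.exp (-l j) := by rw [← Finset.mul_sum]; ring
    _ ≤ 2 * H + H * 1 := by
        have := mul_le_mul_of_nonneg_left hsum hH
        linarith
    _ = 3 * H := by ring

end Pool.Agent.Y821.GK
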