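import Pool.Agent.Y821.GK.Fin
import Pool.Agent.Y821.GK.Main
import Pool.Agent.Y821.GK.Proj
import Pool.Agent.Y821.GK.Gau
import Pool.Agent.Y821.GK.Net
import Pool.Agent.Y821.GK.Dual
import Pool.Agent.Y821.GK.Dec
import Pool.Agent.Y821.GK.Wmax

/-!
# Project GK: assembly
-/

set_option autoImplicit false

open Matrix Pool.H102.SC

namespace Pool.Agent.Y821.GK

theorem approxE_le {N : ℕ} (p q : ENNReal) (n : ℕ) (ε : ℝ) (hε : 0 ≤ ε)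
    (S : Matrix (Fin N) (Fin N) ℝ →ₗ[ℝ] Matrix (Fin N) (Fin N) ℝ)
    (hS : Module.finrank ℝ (LinearMap.range S) < n)
    (h : ∀ A, schattenE q (A - S A) ≤ ε * schattenE p A) : approxE N p q n ≤ ε :=
  csInf_le ⟨0, fun _ hx => hx.1⟩ ⟨hε, S, hS, h⟩

theorem all (hSum : S_SUM) (hBlk : S_BLK) (c : ℝ) (hc0 : 0 < c) (hc1 : c < 1) :
    ∃ C : ℝ, 0 ≤ C ∧ ∀ N n : ℕ, 1 ≤ N → (1 - c) * (N : ℝ) ^ 2 ≤ n →
    ∃ S : Matrix (Fin N) (Fin N) ℝ →ₗ[ℝ] Matrix (Fin N) (Fin N) ℝ,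
      Module.finrank ℝ (LinearMap.range S) < n ∧
      ∀ p q : ENNReal, 1 ≤ p → p ≤ 2 → 2 ≤ q →
        (n : ℝ) ≤ (N : ℝ) ^ 2 - c * (N : ℝ) ^ (lamE p q) + 1 →
        (∀ A, schattenE q (A - S A) ≤
          C * (N : ℝ) ^ (lamE p q / 2 - 2) * Real.sqrt ((N : ℝ) ^ 2 - n + 1) * schattenE p A) ∧
        approxE N p q n ≤
          C * (N : ℝ) ^ (lamE p q / 2 - 2) * Real.sqrt ((N : ℝ) ^ 2 - n + 1) := by
  have hM : S_MAIN := t_MAIN t_DUAL hSum hBlk t_NET (t_PROJ t_NET (t_GAU t_WMAX t_DEC))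
  obtain ⟨C, hC0, hC⟩ := final hM c hc0 hc1
  refine ⟨C, hC0, fun N n hN hn => ?_⟩
  obtain ⟨S, hS1, hS2⟩ := hC N n hN hn
  refine ⟨S, hS1, fun p q hp hp2 hq hn2 => ⟨hS2 p q hp hp2 hq hn2, ?_⟩⟩
  refine approxE_le p q n _ ?_ S hS1 (hS2 p q hp hp2 hq hn2)
  have h1 : 0 ≤ (N : ℝ) ^ (lamE p q / 2 - 2) := Real.rpow_nonneg (Nat.cast_nonneg _) _
  have h2 := Real.sqrt_nonneg ((N : ℝ) ^ 2 - n + 1)
  positivity

end Pool.Agent.Y821.GK
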