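import Pool.Agent.Y821.GK.Stm2

/-!
# Project GK: the final theorem, all exponents `1 ≤ p ≤ 2 ≤ q ≤ ∞` and one linear map
-/

set_option autoImplicit false

open MeasureTheory ProbabilityTheory Matrix Pool.H102.SC

namespace Pool.Agent.Y821.GK

/-- the Schatten norm `‖A‖_{S_p}`, `0 < p ≤ ∞`: `(∑ σ_i ^ p) ^ (1/p)` for finite `p`, the largest singular
value for `p = ∞` -/
noncomputable def schattenE {N : ℕ} (p : ENNReal) (A : Matrix (Fin N) (Fin N) ℝ) : ℝ :=
  if p = ⊤ then ⨆ i, sv A i else (∑ i, sv A i ^ p.toReal) ^ (1 / p.toReal)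

/-- the exponent `λ_{p,q} = max (3 - 2/p) (1 + 2/q)` -/
noncomputable def lamE (p q : ENNReal) : ℝ := max (3 - 2 * (p⁻¹).toReal) (1 + 2 * (q⁻¹).toReal)

/-- the `n`-th approximation number of the identity `S_p^N → S_q^N` -/
noncomputable def approxE (N : ℕ) (p q : ENNReal) (n : ℕ) : ℝ :=
  sInf {ε : ℝ | 0 ≤ ε ∧ ∃ S : Matrix (Fin N) (Fin N) ℝ →ₗ[ℝ] Matrix (Fin N) (Fin N) ℝ,
    Module.finrank ℝ (LinearMap.range S) < n ∧
    ∀ A, schattenE q (A - S A) ≤ ε * schattenE p A}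

variable {N : ℕ}

theorem schattenE_nonneg (p : ENNReal) (A : Matrix (Fin N) (Fin N) ℝ) : 0 ≤ schattenE p A := by
  unfold schattenE
  split_ifs
  · exact Real.iSup_nonneg (fun i => sv_nonneg A i)
  · exact Real.rpow_nonneg (Finset.sum_nonneg (fun i _ => Real.rpow_nonneg (sv_nonneg A i) _)) _

theorem schattenE_of_ne {p : ENNReal} (hp : p ≠ ⊤) (A : Matrix (Fin N) (Fin N) ℝ) :
    schattenE p A = schatten p.toReal A := by
  rw [schattenE, if_neg hp, schatten]

theorem schattenE_le (hN : 1 ≤ N) (q : ENNReal) (r : ℝ) (hr : 0 < r) (hrq : (q⁻¹).toReal ≤ 1 / r)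
    (hq : 0 < q) (B : Matrix (Fin N) (Fin N) ℝ) : schattenE q B ≤ schatten r B := by
  by_cases h : q = ⊤
  · rw [schattenE, if_pos h]
    have : Nonempty (Fin N) := ⟨⟨0, hN⟩⟩
    apply ciSup_le
    intro i
    rw [schatten]
    calc sv B i = (sv B i ^ r) ^ (1 / r) := by
          rw [← Real.rpow_mul (sv_nonneg B i), mul_one_div_cancel hr.ne', Real.rpow_one]
      _ ≤ (∑ i, sv B i ^ r) ^ (1 / r) := by
          apply Real.rpow_le_rpow (Real.rpow_nonneg (sv_nonneg B i) _) _ (by positivity)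
          exact Finset.single_le_sum (f := fun i => sv B i ^ r)
            (fun j _ => Real.rpow_nonneg (sv_nonneg B j) _) (Finset.mem_univ i)
  · rw [schattenE_of_ne h]
    have hq1 : 0 < q.toReal := ENNReal.toReal_pos hq.ne' h
    apply schatten_anti r q.toReal hr
    rw [ENNReal.toReal_inv, ← one_div] at hrq
    exact (one_div_le_one_div hq1 hr).1 hrq

theorem le_schattenE (p : ENNReal) (r : ℝ) (hp : 1 ≤ p) (hp2 : p ≤ 2) (hr : 0 < r)
    (h : 1 / r ≤ (p⁻¹).toReal) (A : Matrix (Fin N) (Fin N) ℝ) : schatten r A ≤ schattenE p A := by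
  have hpt : p ≠ ⊤ := ne_top_of_le_ne_top (by norm_num) hp2
  rw [schattenE_of_ne hpt]
  have hp0 : 0 < p := lt_of_lt_of_le (by norm_num) hp
  have hp1 : 0 < p.toReal := ENNReal.toReal_pos hp0.ne' hpt
  apply schatten_anti p.toReal r hp1
  rw [ENNReal.toReal_inv, ← one_div] at h
  exact (one_div_le_one_div hr hp1).1 h

theorem pq_facts (p q : ENNReal) (hp : 1 ≤ p) (hp2 : p ≤ 2) (hq : 2 ≤ q) :
    0 ≤ (q⁻¹).toReal ∧ (q⁻¹).toReal ≤ 1 / 2 ∧ 1 / 2 ≤ (p⁻¹).toReal ∧ (p⁻¹).toReal ≤ 1 := by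
  have hpt : p ≠ ⊤ := ne_top_of_le_ne_top (by norm_num) hp2
  have hp0 : 0 < p := lt_of_lt_of_le (by norm_num) hp
  have hp1 : 0 < p.toReal := ENNReal.toReal_pos hp0.ne' hpt
  refine ⟨ENNReal.toReal_nonneg, ?_, ?_, ?_⟩
  · have h1 : q⁻¹ ≤ 2⁻¹ := ENNReal.inv_le_inv.2 hq
    have h2 := ENNReal.toReal_mono (by norm_num) h1
    rw [ENNReal.toReal_inv 2] at h2
    simpa using h2
  · have h1 : 2⁻¹ ≤ p⁻¹ := ENNReal.inv_le_inv.2 hp2
    have h2 := ENNReal.toReal_mono (ENNReal.inv_ne_top.2 hp0.ne') h1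
    rw [ENNReal.toReal_inv 2] at h2
    simpa using h2
  · have h1 : p⁻¹ ≤ 1⁻¹ := ENNReal.inv_le_inv.2 hp
    have h2 := ENNReal.toReal_mono (by norm_num) h1
    simpa using h2

set_option maxHeartbeats 2000000 in
theorem final (hM : S_MAIN) (c : ℝ) (hc0 : 0 < c) (hc1 : c < 1) : ∃ C : ℝ, 0 ≤ C ∧ ∀ N n : ℕ, 1 ≤ N →
    (1 - c) * (N : ℝ) ^ 2 ≤ n →
    ∃ S : Matrix (Fin N) (Fin N) ℝ →ₗ[ℝ] Matrix (Fin N) (Fin N) ℝ,
      Module.finrank ℝ (LinearMap.range S) < n ∧
      ∀ p q : ENNReal, 1 ≤ p → p ≤ 2 → 2 ≤ q →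
        (n : ℝ) ≤ (N : ℝ) ^ 2 - c * (N : ℝ) ^ (lamE p q) + 1 →
        ∀ A, schattenE q (A - S A) ≤
          C * (N : ℝ) ^ (lamE p q / 2 - 2) * Real.sqrt ((N : ℝ) ^ 2 - n + 1) * schattenE p A := by
  obtain ⟨C', hC'0, hC'⟩ := hM
  have hsc : 0 < Real.sqrt c := Real.sqrt_pos.2 hc0
  have hcc : 0 < 1 - c := by linarith
  set C : ℝ := C' * (2 / (1 - c)) * (1 / Real.sqrt c + 1) + 2 / (1 - c) with hC
  have hC0 : 0 ≤ C := by rw [hC]; positivity
  refine ⟨C, hC0, ?_⟩
  intro N n hN hn1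
  have hNR : (1 : ℝ) ≤ N := by exact_mod_cast hN
  have hN0 : (0 : ℝ) < N := by linarith
  have hn0 : 1 ≤ n := by
    have : (0 : ℝ) < n := lt_of_lt_of_le (by positivity) hn1
    exact_mod_cast this
  by_cases hnN : N * N < n
  · -- the identity has rank `N ^ 2 < n`
    refine ⟨LinearMap.id, ?_, ?_⟩
    · rw [LinearMap.range_id, finrank_top, Module.finrank_matrix]
      simpa using hnN
    · intro p q hp hp2 hq _ A
      have h0 : A - LinearMap.id (R := ℝ) A = 0 := by simp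
      rw [h0]
      have h1 : schattenE q (0 : Matrix (Fin N) (Fin N) ℝ) ≤ 0 := by
        refine (schattenE_le hN q 1 one_pos ?_ (lt_of_lt_of_le (by norm_num) hq) 0).trans ?_
        · have := (pq_facts p q hp hp2 hq).2.1
          linarith
        · rw [schatten]
          have h2 : ∀ i, sv (0 : Matrix (Fin N) (Fin N) ℝ) i = 0 := by
            intro i
            rw [sv, map_zero]
            simp
          simp [h2]
      refine h1.trans ?_
      have := schattenE_nonneg p A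
      positivity
  push Not at hnN
  set k : ℕ := N * N + 1 - n with hk
  have hk1 : 1 ≤ k := by omega
  have hkR : (k : ℝ) = (N : ℝ) ^ 2 - n + 1 := by
    rw [hk, Nat.cast_sub (by omega)]
    push_cast; ring
  rw [← hkR]
  have hkR1 : (1 : ℝ) ≤ k := by exact_mod_cast hk1
  have hsk : 1 ≤ Real.sqrt k := by
    rw [Real.one_le_sqrt]; exact hkR1
  have hkc2 : (k : ℝ) ≤ c * (N : ℝ) ^ 2 + 1 := by rw [hkR]; linarith
  by_cases hk2 : (k : ℝ) ≤ (1 + c) / 2 * (N : ℝ) ^ 2
  · -- main case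
    have hkN : k < N * N := by
      have h1 : (k : ℝ) < (N : ℝ) ^ 2 := by
        have : (1 + c) / 2 * (N : ℝ) ^ 2 < 1 * (N : ℝ) ^ 2 := by
          apply mul_lt_mul_of_pos_right _ (by positivity)
          linarith
        linarith
      have h2 : (k : ℝ) < ((N * N : ℕ) : ℝ) := by push_cast; nlinarith
      exact_mod_cast h2
    obtain ⟨S, hS1, hS2⟩ := hC' N k hN hk1 hkN
    refine ⟨S, lt_of_le_of_lt hS1 (by omega), ?_⟩
    intro p q hp hp2 hq hn2 A
    obtain ⟨f1, f2, f3, f4⟩ := pq_facts p q hp hp2 hq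
    set t : ℝ := max (q⁻¹).toReal (1 - (p⁻¹).toReal) with ht
    have htq : (q⁻¹).toReal ≤ t := le_max_left _ _
    have htp : 1 - (p⁻¹).toReal ≤ t := le_max_right _ _
    have ht0 : 0 ≤ t := f1.trans htq
    have ht2 : t ≤ 1 / 2 := _root_.max_le f2 (by linarith)
    have hlam : lamE p q = 1 + 2 * t := by
      rw [lamE, ht]
      rcases le_total (q⁻¹).toReal (1 - (p⁻¹).toReal) with h | h
      · rw [max_eq_right h, max_eq_left]
        · ring
        · linarith
      · rw [max_eq_left h, max_eq_right]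
        linarith
    set w : ℝ := lamE p q with hw
    have hl1 : 1 ≤ w := by rw [hlam]; linarith
    have hl2 : w ≤ 2 := by rw [hlam]; linarith
    have hkc : c * (N : ℝ) ^ w ≤ k := by rw [hkR]; linarith
    have hsqk : Real.sqrt c * (N : ℝ) ^ (w / 2) ≤ Real.sqrt k := by
      have h1 : Real.sqrt c * (N : ℝ) ^ (w / 2) = Real.sqrt (c * (N : ℝ) ^ w) := by
        rw [Real.sqrt_mul hc0.le, Real.sqrt_eq_rpow ((N : ℝ) ^ w), ← Real.rpow_mul hN0.le]
        congr 2; ring
      rw [h1]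
      exact Real.sqrt_le_sqrt hkc
    have hD : (1 - c) / 2 * (N : ℝ) ^ 2 ≤ (N : ℝ) * N - k := by nlinarith
    have hD0 : 0 < (1 - c) / 2 * (N : ℝ) ^ 2 := by positivity
    have hDpos : 0 < (N : ℝ) * N - k := lt_of_lt_of_le hD0 hD
    have hpA := schattenE_nonneg p A
    -- the bound for all `s ∈ (0, 1/2]` with `t ≤ s`
    have hs : ∀ s : ℝ, 0 < s → t ≤ s → s ≤ 1 / 2 → schattenE q (A - S A) ≤
        C' / ((N : ℝ) * N - k) * ((N : ℝ) ^ (1 + 2 * s) + Real.sqrt k * (N : ℝ) ^ (1 / 2 + s)) *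
          schattenE p A := by
      intro s hs0 hts hs2
      have h1 := hS2 s hs0 hs2 A
      have h2 : schattenE q (A - S A) ≤ schatten (1 / s) (A - S A) := by
        apply schattenE_le hN q (1 / s) (by positivity) _ (lt_of_lt_of_le (by norm_num) hq)
        rw [one_div_one_div]
        linarith
      have h3 : schatten (1 / (1 - s)) A ≤ schattenE p A := by
        apply le_schattenE p _ hp hp2 (by apply one_div_pos.2; linarith)
        rw [one_div_one_div]
        linarith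
      refine h2.trans (h1.trans ?_)
      apply mul_le_mul_of_nonneg_left h3
      apply mul_nonneg (div_nonneg hC'0 hDpos.le)
      have := Real.sqrt_nonneg (k : ℝ)
      positivity
    -- the bound for `t` itself
    have hmain : schattenE q (A - S A) ≤
        C' / ((N : ℝ) * N - k) * ((N : ℝ) ^ w + Real.sqrt k * (N : ℝ) ^ (w / 2)) *
          schattenE p A := by
      have e2 : w / 2 = 1 / 2 + t := by rw [hlam]; ring
      rw [e2, hlam]
      rcases ht0.eq_or_lt with h0 | h0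
      · rw [← h0]
        have hcont : Continuous (fun s : ℝ => C' / ((N : ℝ) * N - k) *
            ((N : ℝ) ^ (1 + 2 * s) + Real.sqrt k * (N : ℝ) ^ (1 / 2 + s)) * schattenE p A) := by
          have h1 : Continuous (fun s : ℝ => (N : ℝ) ^ (1 + 2 * s)) :=
            Continuous.rpow continuous_const (by fun_prop) (fun _ => Or.inl hN0.ne')
          have h2 : Continuous (fun s : ℝ => (N : ℝ) ^ (1 / 2 + s)) :=
            Continuous.rpow continuous_const (by fun_prop) (fun _ => Or.inl hN0.ne')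
          fun_prop
        have hlim : Filter.Tendsto (fun s : ℝ => C' / ((N : ℝ) * N - k) *
            ((N : ℝ) ^ (1 + 2 * s) + Real.sqrt k * (N : ℝ) ^ (1 / 2 + s)) * schattenE p A)
            (nhdsWithin 0 (Set.Ioi 0)) (nhds (C' / ((N : ℝ) * N - k) *
            ((N : ℝ) ^ (1 + 2 * (0 : ℝ)) + Real.sqrt k * (N : ℝ) ^ (1 / 2 + (0 : ℝ))) *
            schattenE p A)) := (hcont.tendsto 0).mono_left nhdsWithin_le_nhds
        apply ge_of_tendsto hlim
        have h5 : Set.Ioc (0 : ℝ) (1 / 2) ∈ nhdsWithin (0 : ℝ) (Set.Ioi 0) :=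
          Ioc_mem_nhdsGT (by norm_num)
        filter_upwards [h5] with s hs'
        exact hs s hs'.1 (by rw [← h0]; exact hs'.1.le) hs'.2
      · exact hs t h0 le_rfl ht2
    refine hmain.trans (mul_le_mul_of_nonneg_right ?_ hpA)
    have hpow0 : 0 < (N : ℝ) ^ (w / 2 - 2) := Real.rpow_pos_of_pos hN0 _
    have hNl : 0 < (N : ℝ) ^ w := Real.rpow_pos_of_pos hN0 _
    have e1 : (N : ℝ) ^ w = (N : ℝ) ^ (w / 2) * (N : ℝ) ^ (w / 2) := by
      rw [← Real.rpow_add hN0]; congr 1; ring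
    have h2 : (N : ℝ) ^ w ≤ (1 / Real.sqrt c) * (Real.sqrt k * (N : ℝ) ^ (w / 2)) := by
      rw [e1]
      have h3 : (N : ℝ) ^ (w / 2) ≤ 1 / Real.sqrt c * Real.sqrt k := by
        rw [div_mul_eq_mul_div, one_mul, le_div_iff₀ hsc, mul_comm]
        exact hsqk
      have h4 : 0 ≤ (N : ℝ) ^ (w / 2) := (Real.rpow_pos_of_pos hN0 _).le
      calc (N : ℝ) ^ (w / 2) * (N : ℝ) ^ (w / 2)
          ≤ (1 / Real.sqrt c * Real.sqrt k) * (N : ℝ) ^ (w / 2) :=
            mul_le_mul_of_nonneg_right h3 h4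
        _ = _ := by ring
    have e5 : (N : ℝ) ^ (w / 2) / (N : ℝ) ^ 2 = (N : ℝ) ^ (w / 2 - 2) := by
      rw [Real.rpow_sub hN0]
      congr 1
      exact (Real.rpow_natCast (N : ℝ) 2).symm
    have hX : 0 ≤ Real.sqrt k * (N : ℝ) ^ (w / 2) :=
      mul_nonneg (Real.sqrt_nonneg _) (Real.rpow_pos_of_pos hN0 _).le
    calc C' / ((N : ℝ) * N - k) * ((N : ℝ) ^ w + Real.sqrt k * (N : ℝ) ^ (w / 2))
        ≤ C' / ((1 - c) / 2 * (N : ℝ) ^ 2) *
          ((1 / Real.sqrt c) * (Real.sqrt k * (N : ℝ) ^ (w / 2)) +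
            Real.sqrt k * (N : ℝ) ^ (w / 2)) := by
          apply mul_le_mul
          · exact div_le_div_of_nonneg_left hC'0 hD0 hD
          · linarith
          · linarith [hNl.le]
          · positivity
      _ = C' * (2 / (1 - c)) * (1 / Real.sqrt c + 1) *
          ((N : ℝ) ^ (w / 2) / (N : ℝ) ^ 2) * Real.sqrt k := by
          field_simp
      _ = C' * (2 / (1 - c)) * (1 / Real.sqrt c + 1) *
          (N : ℝ) ^ (w / 2 - 2) * Real.sqrt k := by rw [e5]
      _ ≤ C * (N : ℝ) ^ (w / 2 - 2) * Real.sqrt k := by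
          apply mul_le_mul_of_nonneg_right _ (Real.sqrt_nonneg _)
          apply mul_le_mul_of_nonneg_right _ hpow0.le
          rw [hC]
          have : 0 < 2 / (1 - c) := by positivity
          linarith
  · -- small `N`
    push Not at hk2
    refine ⟨0, ?_, ?_⟩
    · rw [LinearMap.range_zero, finrank_bot]; omega
    intro p q hp hp2 hq hn2 A
    obtain ⟨f1, f2, f3, f4⟩ := pq_facts p q hp hp2 hq
    have hl1 : 0 ≤ lamE p q := by
      rw [lamE]
      exact le_max_of_le_right (by linarith)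
    have hpA := schattenE_nonneg p A
    have h1 : (1 - c) / 2 * (N : ℝ) ^ 2 ≤ 1 := by nlinarith
    have h2 : (N : ℝ) ^ (-(2 : ℝ)) ≤ (N : ℝ) ^ (lamE p q / 2 - 2) :=
      Real.rpow_le_rpow_of_exponent_le hNR (by linarith)
    have h3 : (N : ℝ) ^ (-(2 : ℝ)) = 1 / (N : ℝ) ^ 2 := by
      rw [Real.rpow_neg hN0.le, one_div]
      congr 1
      exact Real.rpow_natCast (N : ℝ) 2
    have h4 : (1 - c) / 2 ≤ (N : ℝ) ^ (lamE p q / 2 - 2) := by
      refine le_trans ?_ h2
      rw [h3, le_div_iff₀ (by positivity)]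
      exact h1
    have h5 : (1 : ℝ) = 2 / (1 - c) * ((1 - c) / 2) * 1 := by field_simp
    have h6 : (1 : ℝ) ≤ C * (N : ℝ) ^ (lamE p q / 2 - 2) * Real.sqrt k := by
      calc (1 : ℝ) = 2 / (1 - c) * ((1 - c) / 2) * 1 := h5
        _ ≤ C * (N : ℝ) ^ (lamE p q / 2 - 2) * Real.sqrt k := by
          apply mul_le_mul _ hsk zero_le_one (by positivity)
          apply mul_le_mul _ h4 (by positivity) hC0
          rw [hC]
          have : 0 ≤ C' * (2 / (1 - c)) * (1 / Real.sqrt c + 1) := by positivity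
          linarith
    rw [LinearMap.zero_apply, sub_zero]
    have h7 : schattenE q A ≤ schattenE p A := by
      have h8 : schattenE q A ≤ schatten 2 A :=
        schattenE_le hN q 2 (by norm_num) f2 (lt_of_lt_of_le (by norm_num) hq) A
      have h9 : schatten 2 A ≤ schattenE p A :=
        le_schattenE p 2 hp hp2 (by norm_num) f3 A
      exact h8.trans h9
    calc schattenE q A ≤ 1 * schattenE p A := by rw [one_mul]; exact h7
      _ ≤ _ := mul_le_mul_of_nonneg_right h6 hpA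

end Pool.Agent.Y821.GK
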