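import Pool.Agent.H102R3.SCZ

/-!
# Project GK (helper821): approximation numbers of Schatten classes, one operator for all `p, q`

Stronger form of `MP_6a785f_an.GordonKonigSchutt`: the constant does not depend on `p, q`, the end points
`p = 1`, `q = ∞` are included, and one linear map works for all `p, q` at the same time.

Changes against the starting proof (`Pool.Agent.H102R3.SC*`): blocks of singular values by INDEX
(`2 ^ a ≤ i + 1 < 2 ^ (a + 1)`), nets of blocks of Frobenius norm at most one, the maximum over all pairs of levels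
is taken inside the expected value (Gaussian maxima with weights), and the small levels are lumped together.
-/

set_option autoImplicit false

open MeasureTheory ProbabilityTheory Matrix Pool.H102.SC
open scoped Matrix.Norms.L2Operator

namespace Pool.Agent.Y821.GK

/-- (WMAX) maxima of Gaussian linear forms with different norms -/
def S_WMAX : Prop := ∀ (I J : Type) [Fintype I] [Fintype J] (c : J → EuclideanSpace ℝ I) (l : J → ℝ) (H : ℝ),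
  0 ≤ H → (∀ j, 1 ≤ l j) → (∀ j, ‖c j‖ ≤ H / Real.sqrt (l j)) → ∑ j, Real.exp (-l j) ≤ 1 →
  ∫ g, ‖fun j => inner ℝ (c j) g‖ ∂(Gm I) ≤ 3 * H

/-- (DEC) decoupling for a family of pairs -/
def S_DEC : Prop := ∀ (k : ℕ) (ι P : Type) [Fintype ι] [Fintype P] (x y : P → EuclideanSpace ℝ ι),
  Integrable (fun z : EuclideanSpace ℝ (Fin k × ι) × EuclideanSpace ℝ (Fin k × ι) =>
    ‖fun p => (inner ℝ (act z.1 (x p)) (act z.2 (y p)) : ℝ)‖) ((Gm (Fin k × ι)).prod (Gm (Fin k × ι))) ∧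
  ∫ g, ‖fun p => (inner ℝ (act g (x p)) (act g (y p)) : ℝ) - k * inner ℝ (x p) (y p)‖ ∂(Gm (Fin k × ι)) ≤
    2 * ∫ z : EuclideanSpace ℝ (Fin k × ι) × EuclideanSpace ℝ (Fin k × ι),
      ‖fun p => (inner ℝ (act z.1 (x p)) (act z.2 (y p)) : ℝ)‖ ∂((Gm (Fin k × ι)).prod (Gm (Fin k × ι)))

/-- the data of a singular value decomposition: orthogonal systems of vectors of norm at most one -/
structure Orth {N : ℕ} (u v : Fin N → EuclideanSpace ℝ (Fin N)) : Prop where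
  hu : ∀ i j, i ≠ j → inner ℝ (u i) (u j) = 0
  hu1 : ∀ i, ‖u i‖ ≤ 1
  hv : ∀ i j, i ≠ j → inner ℝ (v i) (v j) = 0
  hv1 : ∀ i, ‖v i‖ ≤ 1

/-- the matrix with singular values `c i`, `i ∈ J` -/
noncomputable def piece {N : ℕ} (u v : Fin N → EuclideanSpace ℝ (Fin N)) (c : Fin N → ℝ) (J : Finset (Fin N)) :
    Matrix (Fin N) (Fin N) ℝ := Matrix.of fun x y => ∑ i ∈ J, c i * (u i x * v i y)

/-- (DUAL) duality -/
def S_DUAL : Prop := ∀ (N : ℕ) (p₀ q₀ : ℝ), 1 < q₀ → 1 / p₀ + 1 / q₀ = 1 →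
  ∀ (R : Matrix (Fin N × Fin N) (Fin N × Fin N) ℝ) (K : ℝ), 0 ≤ K →
  (∀ u v u' v' : Fin N → EuclideanSpace ℝ (Fin N), Orth u v → Orth u' v' → ∀ c d : Fin N → ℝ,
    (∀ i, 0 ≤ c i) → (∀ i, 0 ≤ d i) → Antitone c → Antitone d → ∑ i, c i ^ p₀ ≤ 1 → ∑ i, d i ^ p₀ ≤ 1 →
    |bil R (piece u v c Finset.univ) (piece u' v' d Finset.univ)| ≤ K) →
  ∀ A : Matrix (Fin N) (Fin N) ℝ, schatten q₀ (opm R A) ≤ K * schatten p₀ A

/-- the indices of level `a` -/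
def lev (N a : ℕ) : Finset (Fin N) := Finset.univ.filter (fun i => Nat.log 2 (i.1 + 1) = a)

/-- (SUM) -/
def S_SUM : Prop := ∀ (N : ℕ) (t : ℝ), 1 ≤ N → 0 < t → t ≤ 1 / 2 → ∀ c : Fin N → ℝ, (∀ i, 0 ≤ c i) →
  Antitone c → ∑ i, c i ^ (1 / (1 - t)) ≤ 1 →
  ∑ a ∈ Finset.range (Nat.log 2 N + 1), Real.sqrt (2 ^ a) * Real.sqrt (∑ i ∈ lev N a, c i ^ 2) ≤
    2 * (N : ℝ) ^ t ∧ ∑ i, c i ^ 2 ≤ 1

/-- (BLK) the block decomposition -/
def S_BLK : Prop := ∀ (N k : ℕ), 1 ≤ N → ∀ (R : Matrix (Fin N × Fin N) (Fin N × Fin N) ℝ), Rᵀ = R →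
  ∀ M : ℝ, 0 ≤ M →
  (∀ a b : ℕ, b ≤ a → a ≤ Nat.log 2 N → ∀ u v u' v' : Fin N → EuclideanSpace ℝ (Fin N), Orth u v → Orth u' v' →
    ∀ (c d : Fin N → ℝ) (J J' : Finset (Fin N)), J.card ≤ 2 ^ (a + 1) → J'.card ≤ 2 ^ (b + 1) →
    ∑ i ∈ J, c i ^ 2 ≤ 1 → ∑ i ∈ J', d i ^ 2 ≤ 1 →
    |bil R (piece u v c J) (piece u' v' d J')| ≤
      M * (Real.sqrt (N * 2 ^ a) * (Real.sqrt k + Real.sqrt (N * 2 ^ b)))) →
  ∀ u v u' v' : Fin N → EuclideanSpace ℝ (Fin N), Orth u v → Orth u' v' → ∀ c d : Fin N → ℝ,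
    ∑ i, c i ^ 2 ≤ 1 → ∑ i, d i ^ 2 ≤ 1 → ∀ SA SY : ℝ,
    ∑ a ∈ Finset.range (Nat.log 2 N + 1), Real.sqrt (2 ^ a) * Real.sqrt (∑ i ∈ lev N a, c i ^ 2) ≤ SA →
    ∑ a ∈ Finset.range (Nat.log 2 N + 1), Real.sqrt (2 ^ a) * Real.sqrt (∑ i ∈ lev N a, d i ^ 2) ≤ SY →
    |bil R (piece u v c Finset.univ) (piece u' v' d Finset.univ)| ≤
      2 * M * (Real.sqrt (k * N) * (SA + SY) + N * (SA * SY))

end Pool.Agent.Y821.GK
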