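import Pool.Agent.Y821.GK.Stm

/-!
# Project GK, second list of statements (nets, Gaussian bound, projection, main construction)
-/

set_option autoImplicit false

open MeasureTheory ProbabilityTheory Matrix Pool.H102.SC

namespace Pool.Agent.Y821.GK

/-- a net of the Frobenius unit ball of `N × r` matrices -/
noncomputable def Fn (N r : ℕ) : Finset (EuclideanSpace ℝ (Fin N × Fin r)) :=
  Classical.choose (exists_net (EuclideanSpace ℝ (Fin N × Fin r)))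

/-- the matrix of a vector -/
def toM {N r : ℕ} (V : EuclideanSpace ℝ (Fin N × Fin r)) : Matrix (Fin N) (Fin r) ℝ :=
  Matrix.of fun x t => V (x, t)

/-- index type of the net of level `a`: pairs (operator norm at most one, Frobenius norm at most one) -/
abbrev Jg (N a : ℕ) : Type := ↥(Tn N (2 ^ (a + 1))) × ↥(Fn N (2 ^ (a + 1)))

/-- the matrix of an index -/
noncomputable def gm {N a : ℕ} (j : Jg N a) : Matrix (Fin N) (Fin N) ℝ := j.1.1 * (toM j.2.1)ᵀ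

/-- the vector of an index -/
noncomputable def gv {N a : ℕ} (j : Jg N a) : EuclideanSpace ℝ (Fin N × Fin N) :=
  WithLp.toLp 2 (fun p => gm j p.1 p.2)

/-- (NET) properties of the nets -/
def S_NET : Prop :=
  (∀ (N a : ℕ) (j : Jg N a), ‖gv j‖ ≤ 1) ∧
  (∀ N a : ℕ, Fintype.card (Jg N a) ≤ 25 ^ (N * 2 ^ (a + 1))) ∧
  (∀ (N a b : ℕ) (R : Matrix (Fin N × Fin N) (Fin N × Fin N) ℝ) (m : ℝ),
    (∀ (j : Jg N a) (j' : Jg N b), |bil R (gm j) (gm j')| ≤ m) →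
    ∀ u v u' v' : Fin N → EuclideanSpace ℝ (Fin N), Orth u v → Orth u' v' →
    ∀ (c d : Fin N → ℝ) (J J' : Finset (Fin N)), J.card ≤ 2 ^ (a + 1) → J'.card ≤ 2 ^ (b + 1) →
    ∑ i ∈ J, c i ^ 2 ≤ 1 → ∑ i ∈ J', d i ^ 2 ≤ 1 →
    |bil R (piece u v c J) (piece u' v' d J')| ≤ 16 * m)

/-- pairs of levels `b ≤ a ≤ L` -/
abbrev LP (L : ℕ) : Type := {ab : Fin (L + 1) × Fin (L + 1) // ab.2 ≤ ab.1}

/-- index type of the whole family -/
abbrev PX (L : ℕ) (J : Fin (L + 1) → Type) : Type := Σ ab : LP L, J ab.1.1 × J ab.1.2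

/-- the weights -/
noncomputable def sw (N k a b : ℕ) : ℝ := Real.sqrt (N * 2 ^ a) * (Real.sqrt k + Real.sqrt (N * 2 ^ b))

/-- (GAU) the Gaussian bound for all levels at once -/
def S_GAU : Prop := ∀ (ι : Type) [Fintype ι] (k N L : ℕ), 1 ≤ N →
  ∀ (J : Fin (L + 1) → Type) [∀ a, Fintype (J a)] (x : ∀ a, J a → EuclideanSpace ℝ ι),
  (∀ a j, ‖x a j‖ ≤ 1) → (∀ a, Fintype.card (J a) ≤ 25 ^ (N * 2 ^ ((a : ℕ) + 1))) →
  Integrable (fun g : EuclideanSpace ℝ (Fin k × ι) => ‖fun p : PX L J =>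
      ((inner ℝ (act g (x p.1.1.1 p.2.1)) (act g (x p.1.1.2 p.2.2)) : ℝ) -
        k * inner ℝ (x p.1.1.1 p.2.1) (x p.1.1.2 p.2.2)) / sw N k p.1.1.1 p.1.1.2‖) (Gm (Fin k × ι)) ∧
  ∫ g : EuclideanSpace ℝ (Fin k × ι), ‖fun p : PX L J =>
      ((inner ℝ (act g (x p.1.1.1 p.2.1)) (act g (x p.1.1.2 p.2.2)) : ℝ) -
        k * inner ℝ (x p.1.1.1 p.2.1) (x p.1.1.2 p.2.2)) / sw N k p.1.1.1 p.1.1.2‖ ∂(Gm (Fin k × ι)) ≤ 432

/-- the centred multiple of a projection of rank `k` -/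
noncomputable def Rm {N k m : ℕ} (e₀ : Fin N × Fin N ≃ Fin k ⊕ Fin m) (U : Og (Fin N × Fin N)) :
    Matrix (Fin N × Fin N) (Fin N × Fin N) ℝ :=
  star (U : Matrix (Fin N × Fin N) (Fin N × Fin N) ℝ) * ((Fintype.card (Fin N × Fin N) : ℝ) •
      diagonal (fun x => if (e₀ x).isLeft then (1 : ℝ) else 0)) *
    (U : Matrix (Fin N × Fin N) (Fin N × Fin N) ℝ) - (k : ℝ) • 1

/-- (PROJ) a good projection for all levels at once -/
def S_PROJ : Prop := ∀ (N k m : ℕ), 1 ≤ N → 1 ≤ k → ∀ e₀ : Fin N × Fin N ≃ Fin k ⊕ Fin m,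
  ∃ U : Og (Fin N × Fin N), (Rm e₀ U)ᵀ = Rm e₀ U ∧ ∀ a b : ℕ, b ≤ a → a ≤ Nat.log 2 N →
    ∀ (j : Jg N a) (j' : Jg N b), |bil (Rm e₀ U) (gm j) (gm j')| ≤ 432 * sw N k a b

/-- (MAIN) one linear map for all exponents -/
def S_MAIN : Prop := ∃ C : ℝ, 0 ≤ C ∧ ∀ N k : ℕ, 1 ≤ N → 1 ≤ k → k < N * N →
  ∃ S : Matrix (Fin N) (Fin N) ℝ →ₗ[ℝ] Matrix (Fin N) (Fin N) ℝ,
    Module.finrank ℝ (LinearMap.range S) ≤ N * N - k ∧
    ∀ t : ℝ, 0 < t → t ≤ 1 / 2 → ∀ A, schatten (1 / t) (A - S A) ≤ C / ((N : ℝ) * N - k) *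
      ((N : ℝ) ^ (1 + 2 * t) + Real.sqrt k * (N : ℝ) ^ (1 / 2 + t)) * schatten (1 / (1 - t)) A

end Pool.Agent.Y821.GK
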